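import Pool.Agent.H8.HW.Half

/-! Graphs of independence number two: decomposition of a critical subgraph, and pairing. -/

set_option autoImplicit false
set_option linter.unusedSectionVars false

open scoped Classical

namespace Pool.Agent.H8.HW

open TH481.DM Pool.Agent.W212.EFF

variable {V : Type} [Fintype V]

/-- a critical set splits into classes joined completely, by Gallai's theorem -/
theorem decomp (G : SimpleGraph V) : ∀ (c : ℕ) (T : Finset V), T.card ≤ c →
    (∀ v ∈ T, Y (Ind G) (T.erase v) < Y (Ind G) T) →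
    ∃ (l : V → ℕ) (S : Finset V), S ⊆ T ∧ (∀ u ∈ T, ∀ v ∈ T, l u ≠ l v → G.Adj u v) ∧
      (∀ u ∈ S, ∀ v ∈ S, l u = l v → u = v) ∧ 2 * Y (Ind G) T ≤ T.card + S.card := by
  intro c
  induction c with
  | zero =>
    intro T hT _
    have h0 : T = ∅ := Finset.card_eq_zero.1 (Nat.le_zero.1 hT)
    subst h0
    refine ⟨fun _ => 0, ∅, Finset.Subset.refl _, fun u hu => absurd hu (Finset.notMem_empty u),
      fun u hu => absurd hu (Finset.notMem_empty u), ?_⟩
    rw [Y_empty]
    simp
  | succ c ih =>
    intro T hT hcrit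
    by_cases hconn : ∀ B ⊆ T, B.Nonempty → B ≠ T → ∃ x ∈ B, ∃ y ∈ T \ B, Ind G {x, y}
    · have h1 := gallai (ind_cpx G) T hcrit hconn
      rcases Nat.even_or_odd T.card with he | ho
      · refine ⟨fun _ => 0, ∅, Finset.empty_subset _, fun u _ v _ h => absurd rfl h,
          fun u hu => absurd hu (Finset.notMem_empty u), ?_⟩
        obtain ⟨r, hr⟩ := he
        rw [Finset.card_empty]
        omega
      · obtain ⟨r, hr⟩ := ho
        obtain ⟨x, hx⟩ := Finset.card_pos.1 (by omega : 0 < T.card)
        refine ⟨fun _ => 0, {x}, Finset.singleton_subset_iff.2 hx, fun u _ v _ h => absurd rfl h,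
          ?_, ?_⟩
        · intro u hu v hv _
          rw [Finset.mem_singleton] at hu hv
          rw [hu, hv]
        · rw [Finset.card_singleton]
          exact h1
    · push Not at hconn
      obtain ⟨B, hB, hBne, hBT, hj⟩ := hconn
      have hj' : ∀ x ∈ B, ∀ y ∈ T \ B, G.Adj x y := by
        intro x hx y hy
        have := hj x hx y hy
        rw [ind_pair] at this
        exact not_not.1 this
      have hYT : Y (Ind G) T ≤ Y (Ind G) B + Y (Ind G) (T \ B) := by
        have := Y_union_le (ind_cpx G) B (T \ B)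
        rwa [Finset.union_sdiff_of_subset hB] at this
      have hBc : B.card < T.card := Finset.card_lt_card (Finset.ssubset_iff_subset_ne.2 ⟨hB, hBT⟩)
      have hCc : (T \ B).card + B.card = T.card := Finset.card_sdiff_add_card_eq_card hB
      have hBpos := hBne.card_pos
      have hcB : ∀ v ∈ B, Y (Ind G) (B.erase v) < Y (Ind G) B := by
        intro v hv
        have h1 := Y_split (ind_cpx G) (C := T.erase v) (B := B.erase v)
          (Finset.erase_subset_erase _ hB) (by
            intro x hx y hy
            refine hj x (Finset.mem_of_mem_erase hx) y ?_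
            rw [Finset.mem_sdiff, Finset.mem_erase, Finset.mem_erase] at hy
            rw [Finset.mem_sdiff]
            exact ⟨hy.1.2, fun h => hy.2 ⟨hy.1.1, h⟩⟩)
        have h2 : (T.erase v) \ (B.erase v) = T \ B := by
          ext x
          rw [Finset.mem_sdiff, Finset.mem_erase, Finset.mem_erase, Finset.mem_sdiff]
          constructor
          · rintro ⟨⟨h1, h2⟩, h3⟩
            exact ⟨h2, fun h => h3 ⟨h1, h⟩⟩
          · rintro ⟨h1, h2⟩
            exact ⟨⟨fun h => h2 (h ▸ hv), h1⟩, fun h => h2 h.2⟩
        rw [h2] at h1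
        have h3 := hcrit v (hB hv)
        omega
      have hcC : ∀ v ∈ T \ B, Y (Ind G) ((T \ B).erase v) < Y (Ind G) (T \ B) := by
        intro v hv
        have hv' := Finset.mem_sdiff.1 hv
        have hBv : B ⊆ T.erase v := by
          intro x hx
          rw [Finset.mem_erase]
          exact ⟨fun h => hv'.2 (h ▸ hx), hB hx⟩
        have h1 := Y_split (ind_cpx G) (C := T.erase v) (B := B) hBv (by
            intro x hx y hy
            refine hj x hx y ?_
            rw [Finset.mem_sdiff, Finset.mem_erase] at hy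
            rw [Finset.mem_sdiff]
            exact ⟨hy.1.2, hy.2⟩)
        have h2 : (T.erase v) \ B = (T \ B).erase v := by
          ext x
          rw [Finset.mem_sdiff, Finset.mem_erase, Finset.mem_erase, Finset.mem_sdiff]
          tauto
        rw [h2] at h1
        have h3 := hcrit v hv'.1
        omega
      obtain ⟨l1, S1, hS1, ha1, ht1, hc1⟩ := ih B (by omega) hcB
      obtain ⟨l2, S2, hS2, ha2, ht2, hc2⟩ := ih (T \ B) (by omega) hcC
      have hdS : Disjoint S1 S2 :=
        Finset.disjoint_of_subset_left hS1 (Finset.disjoint_of_subset_right hS2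
          Finset.disjoint_sdiff)
      refine ⟨fun u => if u ∈ B then 2 * l1 u else 2 * l2 u + 1, S1 ∪ S2,
        Finset.union_subset (hS1.trans hB) (hS2.trans Finset.sdiff_subset), ?_, ?_, ?_⟩
      · intro u hu v hv huv
        by_cases h1 : u ∈ B <;> by_cases h2 : v ∈ B
        · simp only [h1, h2, if_true] at huv
          exact ha1 u h1 v h2 (fun h => huv (by rw [h]))
        · exact hj' u h1 v (Finset.mem_sdiff.2 ⟨hv, h2⟩)
        · exact (hj' v h2 u (Finset.mem_sdiff.2 ⟨hu, h1⟩)).symm
        · simp only [h1, h2, if_false] at huv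
          exact ha2 u (Finset.mem_sdiff.2 ⟨hu, h1⟩) v (Finset.mem_sdiff.2 ⟨hv, h2⟩)
            (fun h => huv (by rw [h]))
      · intro u hu v hv huv
        rcases Finset.mem_union.1 hu with hu | hu <;> rcases Finset.mem_union.1 hv with hv | hv
        · have h1 := hS1 hu
          have h2 := hS1 hv
          simp only [h1, h2, if_true] at huv
          exact ht1 u hu v hv (by omega)
        · have h1 := hS1 hu
          have h2 := (Finset.mem_sdiff.1 (hS2 hv)).2
          simp only [h1, h2, if_true, if_false] at huv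
          omega
        · have h1 := (Finset.mem_sdiff.1 (hS2 hu)).2
          have h2 := hS1 hv
          simp only [h1, h2, if_true, if_false] at huv
          omega
        · have h1 := (Finset.mem_sdiff.1 (hS2 hu)).2
          have h2 := (Finset.mem_sdiff.1 (hS2 hv)).2
          simp only [h1, h2, if_false] at huv
          exact ht2 u hu v hv (by omega)
      · rw [Finset.card_union_of_disjoint hdS]
        omega

/-- pairs of vertices of different classes -/
theorem md_pairs {G : SimpleGraph V} (X : Finset V) (t : ℕ) (hX : Md G X t) :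
    ∀ (r : ℕ) (D E : Finset V), D.card = r → E.card = r → Disjoint X D → Disjoint X E →
      Disjoint D E → (∀ d ∈ D, ∀ e ∈ E, G.Adj d e ∧ ∀ x ∈ X ∪ D ∪ E, G.Adj d x ∨ G.Adj e x) →
      Md G (X ∪ D ∪ E) (t + r) := by
  intro r
  induction r with
  | zero =>
    intro D E hD hE _ _ _ _
    rw [Finset.card_eq_zero.1 hD, Finset.card_eq_zero.1 hE, Finset.union_empty,
      Finset.union_empty, Nat.add_zero]
    exact hX
  | succ r ih =>
    intro D E hD hE hXD hXE hDE h
    obtain ⟨d, hd⟩ := Finset.card_pos.1 (by omega : 0 < D.card)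
    obtain ⟨e, he⟩ := Finset.card_pos.1 (by omega : 0 < E.card)
    have hD' : D.erase d ⊆ D := Finset.erase_subset _ _
    have hE' : E.erase e ⊆ E := Finset.erase_subset _ _
    have h1 := ih (D.erase d) (E.erase e) (by rw [Finset.card_erase_of_mem hd]; omega)
      (by rw [Finset.card_erase_of_mem he]; omega) (Finset.disjoint_of_subset_right hD' hXD)
      (Finset.disjoint_of_subset_right hE' hXE)
      (Finset.disjoint_of_subset_left hD' (Finset.disjoint_of_subset_right hE' hDE)) (by
        intro d' hd' e' he'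
        refine ⟨(h d' (hD' hd') e' (hE' he')).1, fun x hx => (h d' (hD' hd') e' (hE' he')).2 x ?_⟩
        simp only [Finset.mem_union] at hx ⊢
        rcases hx with (hx | hx) | hx
        · exact Or.inl (Or.inl hx)
        · exact Or.inl (Or.inr (hD' hx))
        · exact Or.inr (hE' hx))
    rw [← Nat.add_assoc]
    refine Md.pair (a := d) (b := e) ?_ ?_ ?_ (h d hd e he).1 ?_
    · refine h1.mono le_rfl ?_ le_rfl
      intro x hx
      simp only [Finset.mem_union, Finset.mem_erase, Finset.mem_sdiff, Finset.mem_insert,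
        Finset.mem_singleton] at hx ⊢
      rcases hx with (hx | hx) | hx
      · refine ⟨Or.inl (Or.inl hx), ?_⟩
        rintro (rfl | rfl)
        · exact Finset.disjoint_left.1 hXD hx hd
        · exact Finset.disjoint_left.1 hXE hx he
      · refine ⟨Or.inl (Or.inr hx.2), ?_⟩
        rintro (rfl | rfl)
        · exact hx.1 rfl
        · exact Finset.disjoint_left.1 hDE hx.2 he
      · refine ⟨Or.inr hx.2, ?_⟩
        rintro (rfl | rfl)
        · exact Finset.disjoint_left.1 hDE hd hx.2
        · exact hx.1 rfl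
    · exact Finset.mem_union_left _ (Finset.mem_union_right _ hd)
    · exact Finset.mem_union_right _ he
    · intro x hx _ _
      exact (h d hd e he).2 x hx

/-- one dominating class: all other vertices are paired with it or are singles -/
theorem big_class {G : SimpleGraph V} (T S : Finset V) (l : V → ℕ) (hST : S ⊆ T)
    (ha : ∀ u ∈ T, ∀ v ∈ T, l u ≠ l v → G.Adj u v) (ht : ∀ u ∈ S, ∀ v ∈ S, l u = l v → u = v)
    (a q : ℕ) (hq : 2 * q ≤ T.card + S.card) (X : Finset V) (hX : X ⊆ T.filter fun v => l v = a)
    (hXc : X.card + ((T \ S).filter fun v => ¬ l v = a).card = (T.filter fun v => l v = a).card)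
    (hmd : Md G X ((X.card + 1) / 2)) : Md G T q := by
  set Ta := T.filter fun v => l v = a with hTa
  set E := (T \ S).filter fun v => ¬ l v = a with hE
  set S' := S.filter fun v => ¬ l v = a with hS'
  set Sa := S.filter fun v => l v = a with hSa
  have hSa1 : Sa.card ≤ 1 := by
    rw [Finset.card_le_one]
    intro u hu v hv
    rw [hSa, Finset.mem_filter] at hu hv
    exact ht u hu.1 v hv.1 (hu.2.trans hv.2.symm)
  have hSc : S.card = S'.card + Sa.card := by
    have h1 : Sa.card + S'.card = S.card := Finset.card_filter_add_card_filter_not _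
    omega
  have hTc : T.card = Ta.card + E.card + S'.card := by
    have h1 : Ta.card + (T.filter fun v => ¬ l v = a).card = T.card :=
      Finset.card_filter_add_card_filter_not _
    have h2 : (T.filter fun v => ¬ l v = a) = E ∪ S' := by
      ext x
      simp only [hE, hS', Finset.mem_union, Finset.mem_filter, Finset.mem_sdiff]
      constructor
      · rintro ⟨h1, h2⟩
        by_cases h : x ∈ S
        · exact Or.inr ⟨h, h2⟩
        · exact Or.inl ⟨⟨h1, h⟩, h2⟩
      · rintro (⟨⟨h1, _⟩, h2⟩ | ⟨h1, h2⟩)
        · exact ⟨h1, h2⟩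
        · exact ⟨hST h1, h2⟩
    have h3 : Disjoint E S' := by
      rw [Finset.disjoint_left]
      intro x hx hx'
      rw [hE, Finset.mem_filter, Finset.mem_sdiff] at hx
      exact hx.1.2 (Finset.mem_filter.1 hx').1
    rw [h2, Finset.card_union_of_disjoint h3] at h1
    omega
  have hDc : (Ta \ X).card = E.card := by
    have := Finset.card_sdiff_add_card_eq_card hX
    omega
  have hl1 : ∀ x ∈ Ta, x ∈ T ∧ l x = a := fun x hx => Finset.mem_filter.1 hx
  have hl2 : ∀ x ∈ E, x ∈ T ∧ l x ≠ a := fun x hx =>
    ⟨(Finset.mem_sdiff.1 (Finset.mem_filter.1 hx).1).1, (Finset.mem_filter.1 hx).2⟩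
  have hl3 : ∀ x ∈ S', x ∈ T ∧ l x ≠ a := fun x hx =>
    ⟨hST (Finset.mem_filter.1 hx).1, (Finset.mem_filter.1 hx).2⟩
  have h1 : Md G (X ∪ S') ((X.card + 1) / 2 + S'.card) := by
    refine Md.singles S' X _ hmd ?_ ?_
    · rw [Finset.disjoint_left]
      intro x hx hx'
      exact (hl3 x hx').2 (hl1 x (hX hx)).2
    · intro s hs x hx hxs
      refine ha s (hl3 s hs).1 x ?_ ?_
      · rcases Finset.mem_union.1 hx with h | h
        · exact (hl1 x (hX h)).1
        · exact (hl3 x h).1
      · intro h
        rcases Finset.mem_union.1 hx with h' | h'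
        · exact (hl3 s hs).2 (h.trans (hl1 x (hX h')).2)
        · exact hxs (ht s (Finset.mem_filter.1 hs).1 x (Finset.mem_filter.1 h').1 h).symm
  have h2 := md_pairs (X ∪ S') _ h1 E.card (Ta \ X) E hDc rfl (by
      rw [Finset.disjoint_left]
      intro x hx hx'
      rw [Finset.mem_sdiff] at hx'
      rcases Finset.mem_union.1 hx with h | h
      · exact hx'.2 h
      · exact (hl3 x h).2 (hl1 x hx'.1).2) (by
      rw [Finset.disjoint_left]
      intro x hx hx'
      rcases Finset.mem_union.1 hx with h | h
      · exact (hl2 x hx').2 (hl1 x (hX h)).2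
      · rw [hE, Finset.mem_filter, Finset.mem_sdiff] at hx'
        exact hx'.1.2 (Finset.mem_filter.1 h).1) (by
      rw [Finset.disjoint_left]
      intro x hx hx'
      exact (hl2 x hx').2 (hl1 x (Finset.mem_sdiff.1 hx).1).2) (by
      intro d hd e he
      have hd' := hl1 d (Finset.mem_sdiff.1 hd).1
      have he' := hl2 e he
      refine ⟨ha d hd'.1 e he'.1 (fun h => he'.2 (h.symm.trans hd'.2)), ?_⟩
      intro x hx
      have hxT : x ∈ T := by
        simp only [Finset.mem_union] at hx
        rcases hx with ((hx | hx) | hx) | hx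
        · exact (hl1 x (hX hx)).1
        · exact (hl3 x hx).1
        · exact (hl1 x (Finset.mem_sdiff.1 hx).1).1
        · exact (hl2 x hx).1
      by_cases h : l x = a
      · right
        exact ha e he'.1 x hxT (fun h' => he'.2 (h'.trans h))
      · left
        exact ha d hd'.1 x hxT (fun h' => h (h'.symm.trans hd'.2)))
  refine h2.mono le_rfl ?_ ?_
  · intro x hx
    simp only [Finset.mem_union] at hx
    rcases hx with ((hx | hx) | hx) | hx
    · exact (hl1 x (hX hx)).1
    · exact (hl3 x hx).1
    · exact (hl1 x (Finset.mem_sdiff.1 hx).1).1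
    · exact (hl2 x hx).1
  · omega

theorem memc {α : Type} [Fintype α] (d : DecidableEq α) (s : Finset α) (x : α) :
    x ∈ sᶜ ↔ x ∉ s := Finset.mem_compl

/-- no dominating class: pairs across the classes -/
theorem balanced {G : SimpleGraph V} (T S : Finset V) (l : V → ℕ) (hST : S ⊆ T)
    (ha : ∀ u ∈ T, ∀ v ∈ T, l u ≠ l v → G.Adj u v) (ht : ∀ u ∈ S, ∀ v ∈ S, l u = l v → u = v)
    (q : ℕ) (hq : 2 * q ≤ T.card + S.card)
    (hb : ∀ a, 2 * ((T \ S).filter fun v => l v = a).card ≤ (T \ S).card) : Md G T q := by
  apply md_of_induce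
  set S1 : Finset (T : Set V) := Finset.univ.filter fun x => x.1 ∈ S with hS1
  have hall : ∀ A : Finset (T : Set V), (∀ x, x ∈ A ↔ x.1 ∉ S) → A.card = (T \ S).card := by
    intro A hA
    refine Finset.card_bij (fun x _ => x.1) ?_ ?_ ?_
    · intro x hx
      exact Finset.mem_sdiff.2 ⟨x.2, (hA x).1 hx⟩
    · intro x _ y _ hxy
      exact Subtype.ext hxy
    · intro x hx
      rw [Finset.mem_sdiff] at hx
      exact ⟨⟨x, hx.1⟩, (hA _).2 hx.2, rfl⟩
  have hS1c : S1.card = S.card := by
    refine Finset.card_bij (fun x _ => x.1) ?_ ?_ ?_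
    · intro x hx
      exact (Finset.mem_filter.1 hx).2
    · intro x _ y _ hxy
      exact Subtype.ext hxy
    · intro x hx
      exact ⟨⟨x, hST hx⟩, Finset.mem_filter.2 ⟨Finset.mem_univ _, hx⟩, rfl⟩
  have hmem : ∀ x : (T : Set V), x ∈ S1 ↔ x.1 ∈ S := by
    intro x
    rw [hS1, Finset.mem_filter]
    exact ⟨fun h => h.2, fun h => ⟨Finset.mem_univ _, h⟩⟩
  have hTS := Finset.card_sdiff_add_card_eq_card hST
  refine cross_pairs (G.induce (T : Set V)) (fun x => l x.1) ?_ S1 ?_ ?_ q ?_
  · intro u v huv
    rw [SimpleGraph.induce_adj]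
    exact ha u.1 u.2 v.1 v.2 huv
  · intro u hu v hv huv
    exact Subtype.ext (ht u.1 (Finset.mem_filter.1 hu).2 v.1 (Finset.mem_filter.1 hv).2 huv)
  · intro a
    refine (Nat.mul_le_mul_left 2 (Finset.card_le_card_of_injOn (t := (T \ S).filter fun v =>
      l v = a) (fun x => x.1) ?_ ?_)).trans ((hb a).trans (hall _ fun x => ?_).ge)
    · intro x hx
      have hx1 := Finset.mem_filter.1 (Finset.mem_coe.1 hx)
      rw [Finset.mem_coe, Finset.mem_filter, Finset.mem_sdiff]
      exact ⟨⟨x.2, fun h => (memc _ _ _).1 hx1.1 ((hmem x).2 h)⟩, hx1.2⟩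
    · intro x _ y _ hxy
      exact Subtype.ext hxy
    · exact (memc _ _ _).trans (not_congr (hmem x))
  · rw [hall _ (fun x => (memc _ _ _).trans (not_congr (hmem x))), hS1c]
    omega

end Pool.Agent.H8.HW
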