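import Pool.Agent.H8.HW.Dec

/-! Hadwiger's conjecture for good graphs in which all vertices have many non-neighbours. -/

set_option autoImplicit false
set_option linter.unusedSectionVars false

open scoped Classical

namespace Pool.Agent.H8.HW

open TH481.DM Pool.Agent.W212.EFF

variable {V : Type} [Fintype V]

/-- the size from which on half minors exist -/
def w0 (m : ℕ) : ℕ := (600000 * m ^ 6) * (600000 * m ^ 6)

/-- its square -/
def w1 (m : ℕ) : ℕ := w0 m * w0 m

/-- the number of non-neighbours -/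
def d0 (m : ℕ) : ℕ := 300 * m ^ 4 * w1 m

theorem arith2 (m A Z I j : ℕ) (hm : 0 < m) (hA : d0 m ≤ A) (hZ : A = Z + 2 * j)
    (hj : j < 3 * w1 m) (hI : Z ≤ (2 * m + 1) * I) :
    4 * m * ((3 * w1 m + m + 1) * (5 * m ^ 2 + 1)) ≤ I := by
  have hw : m + 1 ≤ w1 m := by
    have e1 : m ≤ m ^ 6 := Nat.le_self_pow (by norm_num) m
    have e2 : m + 1 ≤ 600000 * m ^ 6 := by omega
    have e3 : m + 1 ≤ w0 m := e2.trans (Nat.le_mul_of_pos_left _ (by omega))
    exact e3.trans (Nat.le_mul_of_pos_left _ (by omega))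
  set w := w1 m with hwdef
  have e1 : 1 ≤ m ^ 2 := Nat.one_le_pow _ _ hm
  have e4 : 1 ≤ m ^ 4 := Nat.one_le_pow _ _ hm
  have e3 : 3 * w + m + 1 ≤ 4 * w := by omega
  have e5 : 5 * m ^ 2 + 1 ≤ 6 * m ^ 2 := by omega
  have e6 : 4 * m * ((3 * w + m + 1) * (5 * m ^ 2 + 1)) ≤ 4 * m * ((4 * w) * (6 * m ^ 2)) :=
    Nat.mul_le_mul_left _ (Nat.mul_le_mul e3 e5)
  have e7 : 4 * m * ((4 * w) * (6 * m ^ 2)) = 96 * m ^ 3 * w := by ring
  have e8 : (2 * m + 1) * I ≤ 3 * m * I := Nat.mul_le_mul_right _ (by omega)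
  have e9 : 294 * m ^ 4 * w ≤ Z := by
    have h1 : d0 m = 300 * m ^ 4 * w := rfl
    have h2 : 300 * m ^ 4 * w = 294 * m ^ 4 * w + 6 * (m ^ 4 * w) := by ring
    have h3 : w ≤ m ^ 4 * w := Nat.le_mul_of_pos_left _ (by omega)
    omega
  have e10 : 3 * m * (96 * m ^ 3 * w) ≤ 3 * m * I := by
    calc 3 * m * (96 * m ^ 3 * w) = 288 * m ^ 4 * w := by ring
      _ ≤ 294 * m ^ 4 * w := Nat.mul_le_mul_right _ (Nat.mul_le_mul_right _ (by norm_num))
      _ ≤ Z := e9
      _ ≤ _ := hI.trans e8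
  have e11 : 96 * m ^ 3 * w ≤ I := Nat.le_of_mul_le_mul_left e10 (by omega)
  omega

theorem exact_minor {G : SimpleGraph V} {m : ℕ} (hg : Good G m) (W : Finset V)
    (hn : 8 * w1 m + w0 m < W.card)
    (hdeg : ∀ v ∈ W, d0 m ≤ (W.filter (nadj G v)).card) : Md G W (Y (Ind G) W) := by
  have hm := hg.pos
  set χ := Y (Ind G) W with hχ
  rcases Nat.lt_or_ge ((W.card + 1) / 2) χ with hbig | hsmall
  swap
  · refine (half hg W ?_).mono le_rfl (Finset.Subset.refl _) hsmall
    have : w0 m = (600000 * m ^ 6) * (600000 * m ^ 6) := rfl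
    omega
  -- a critical set
  obtain ⟨T, hTW, hT, hTmin⟩ : ∃ T : Finset V, T ⊆ W ∧ χ ≤ Y (Ind G) T ∧
      ∀ T' ⊆ W, χ ≤ Y (Ind G) T' → T.card ≤ T'.card := by
    obtain ⟨T, hT, hmin⟩ := Finset.exists_min_image
      (W.powerset.filter fun T => χ ≤ Y (Ind G) T) Finset.card
      ⟨W, Finset.mem_filter.2 ⟨Finset.mem_powerset.2 (Finset.Subset.refl _), le_rfl⟩⟩
    rw [Finset.mem_filter, Finset.mem_powerset] at hT
    exact ⟨T, hT.1, hT.2, fun T' h1 h2 =>
      hmin T' (Finset.mem_filter.2 ⟨Finset.mem_powerset.2 h1, h2⟩)⟩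
  have hcrit : ∀ v ∈ T, Y (Ind G) (T.erase v) < Y (Ind G) T := by
    intro v hv
    by_contra hcon
    have h1 := hTmin (T.erase v) ((Finset.erase_subset _ _).trans hTW) (hT.trans (not_lt.1 hcon))
    have h2 : (T.erase v).card + 1 = T.card := Finset.card_erase_add_one hv
    omega
  obtain ⟨l, S, hST, ha, ht, hc⟩ := decomp G T.card T le_rfl hcrit
  have hTc : χ ≤ T.card := hT.trans (Y_le_card (ind_cpx G) T)
  have hTS := Finset.card_sdiff_add_card_eq_card hST
  by_cases hb : ∀ a, 2 * ((T \ S).filter fun v => l v = a).card ≤ (T \ S).card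
  · exact (balanced T S l hST ha ht χ (by omega) hb).mono le_rfl hTW le_rfl
  push Not at hb
  obtain ⟨a, hb⟩ := hb
  set Ta := T.filter fun v => l v = a with hTa
  set E := (T \ S).filter fun v => ¬ l v = a with hE
  have hEa : ((T \ S).filter fun v => l v = a).card + E.card = (T \ S).card :=
    Finset.card_filter_add_card_filter_not _
  have hTa1 : ((T \ S).filter fun v => l v = a).card ≤ Ta.card :=
    Finset.card_le_card (Finset.filter_subset_filter _ Finset.sdiff_subset)
  rcases Nat.lt_or_ge (Ta.card - E.card) (w0 m) with hx | hx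
  swap
  · obtain ⟨X, hX, hXc⟩ := Finset.exists_subset_card_eq (Nat.sub_le Ta.card E.card)
    exact (big_class T S l hST ha ht a χ (by omega) X hX (by rw [hXc, ← hE, ← hTa]; omega)
      (half hg X (by rw [hXc]; exact hx))).mono le_rfl hTW le_rfl
  have hm6 : 0 < m ^ 6 := Nat.pow_pos hm
  have hw0 : 0 < w0 m := by
    unfold w0
    positivity
  rcases Nat.lt_or_ge Ta.card (w1 m) with hy | hy
  swap
  · obtain ⟨P0, hP0, hPi, hPc⟩ := indep_tri (nadj G) (nadj_symm G) (nadj_irr G) hg.tri Ta (w0 m) hw0 hy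
    obtain ⟨X, hX, hXc⟩ := Finset.exists_subset_card_eq (hx.le.trans hPc)
    exact (big_class T S l hST ha ht a χ (by omega) X (hX.trans hP0)
      (by rw [hXc, ← hE, ← hTa]; omega) ((md_clique G X (fun x hx y hy hxy =>
        adj_of x y hxy (hPi x (hX hx) y (hX hy)))).mono le_rfl (Finset.Subset.refl _)
          (by omega))).mono le_rfl hTW le_rfl
  -- everything is a single, up to few vertices
  set S1 := S.filter fun s => ∀ t ∈ T, l t = l s → t = s with hS1
  have hSS1 : S.card ≤ S1.card + (T \ S).card := by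
    have h1 : S1.card + (S.filter fun s => ¬ ∀ t ∈ T, l t = l s → t = s).card = S.card :=
      Finset.card_filter_add_card_filter_not _
    have h2 : (S.filter fun s => ¬ ∀ t ∈ T, l t = l s → t = s).card ≤ (T \ S).card := by
      have hch : ∀ s : V, ∃ t : V, s ∈ (S.filter fun s => ¬ ∀ t ∈ T, l t = l s → t = s) →
          t ∈ T \ S ∧ l t = l s := by
        intro s
        by_cases hs : s ∈ (S.filter fun s => ¬ ∀ t ∈ T, l t = l s → t = s)
        · have hs' := (Finset.mem_filter.1 hs).2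
          push Not at hs'
          obtain ⟨t, htT, h1, h2⟩ := hs'
          exact ⟨t, fun _ => ⟨Finset.mem_sdiff.2 ⟨htT, fun h =>
            h2 (ht t h s (Finset.mem_filter.1 hs).1 h1)⟩, h1⟩⟩
        · exact ⟨s, fun h => absurd h hs⟩
      choose φ hφ using hch
      refine Finset.card_le_card_of_injOn φ (fun s hs => (hφ s hs).1) ?_
      intro s hs s' hs' hss
      have h1 := (hφ s hs).2
      have h2 := (hφ s' hs').2
      rw [hss] at h1
      exact ht s (Finset.mem_filter.1 hs).1 s' (Finset.mem_filter.1 hs').1 (h1.symm.trans h2)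
    omega
  have hS1T : S1 ⊆ T := (Finset.filter_subset _ _).trans hST
  have hadj1 : ∀ s ∈ S1, ∀ t ∈ T, t ≠ s → G.Adj s t := by
    intro s hs t htT hts
    refine ha s (hS1T hs) t htT (fun h => hts ?_)
    exact (Finset.mem_filter.1 hs).2 t htT h.symm
  have hcl1 : ∀ x ∈ S1, ∀ y ∈ S1, x ≠ y → G.Adj x y :=
    fun x hx y hy hxy => hadj1 x hx y (hS1T hy) hxy.symm
  have hTE : (T \ S).card < 2 * w1 m := by omega
  have hχ1 : χ ≤ S1.card + 3 * w1 m := by omega
  have hne : 0 < S1.card := by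
    have hw01 : w0 m ≤ w1 m := Nat.le_mul_of_pos_left _ hw0
    omega
  obtain ⟨s0, hs0⟩ := Finset.card_pos.1 hne
  set A := W \ T with hA
  have hAc : d0 m ≤ A.card := by
    refine (hdeg s0 (hTW (hS1T hs0))).trans (Finset.card_le_card ?_)
    intro w hw
    rw [Finset.mem_filter] at hw
    rw [hA, Finset.mem_sdiff]
    exact ⟨hw.1, fun h => hw.2.2 (hadj1 s0 hs0 w h hw.2.1.symm)⟩
  have hSAW : S1 ∪ A ⊆ W := Finset.union_subset (hS1T.trans hTW) Finset.sdiff_subset
  have hdA : Disjoint S1 A := by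
    rw [Finset.disjoint_left]
    intro x hx hx'
    exact (Finset.mem_sdiff.1 hx').2 (hS1T hx)
  obtain ⟨Z, j, hZ, hZf, hcZ, _, hmd⟩ := peel (G := G) S1 (S1 ∪ A).card (S1 ∪ A) le_rfl
    Finset.subset_union_left
  rw [Finset.card_union_of_disjoint hdA] at hcZ
  have hdZ : Disjoint S1 Z := by
    rw [Finset.disjoint_left]
    intro x hx hx'
    exact (Finset.mem_sdiff.1 (hZ hx')).2 hx
  rcases Nat.lt_or_ge j (3 * w1 m) with hj | hj
  · obtain ⟨I, hI, hIi, hIc⟩ := indep_sparse (nadj G) (nadj_symm G) (nadj_irr G) m Z (fun U hU => hg.sparse U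
      (fun x hx y hy => hZf x (hU hx) y (hU hy)))
    have key := md_two G S1 I m (5 * m ^ 2) (3 * w1 m + m) hm
      (lt_of_le_of_lt (Nat.mul_le_mul_left _ (Finset.card_le_univ S1)) hg.hK) hcl1
      (fun x hx y hy hxy => adj_of x y hxy (hIi x hx y hy))
      (Finset.disjoint_of_subset_right hI hdZ)
      (arith2 m A.card Z.card I.card j hm hAc (by omega) hj hIc) hg.join
      (S1.card + 3 * w1 m) (by omega)
    exact (hmd _ (key.mono le_rfl (Finset.union_subset_union_right hI) le_rfl)).mono le_rfl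
      hSAW (by omega)
  · exact (hmd _ ((md_clique G S1 hcl1).mono le_rfl Finset.subset_union_left le_rfl)).mono
      le_rfl hSAW (by omega)

theorem exact_had {G : SimpleGraph V} {m : ℕ} (hg : Good G m) (W : Finset V)
    (hdeg : ∀ v ∈ W, d0 m ≤ (W.filter (nadj G v)).card)
    (k : ℕ) (hk : ¬ (G.induce (W : Set V)).Colorable k) : Md G W (k + 1) := by
  have hm := hg.pos
  have h1 : k < Y (Ind G) W := by
    by_contra hcon
    apply hk
    rw [colorable_induce_iff]
    exact (cov_iff G k W).1 ((Y_spec (ind_cpx G) W).le (ind_cpx G) (not_lt.1 hcon))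
  have hWne : W.Nonempty := by
    rw [Finset.nonempty_iff_ne_empty]
    intro h
    rw [h, Y_empty] at h1
    omega
  obtain ⟨v, hv⟩ := hWne
  have h2 : d0 m ≤ W.card := (hdeg v hv).trans (Finset.card_le_card (Finset.filter_subset _ _))
  have hw0 : 0 < w0 m := by
    unfold w0
    positivity
  have h3 : w0 m ≤ w1 m := Nat.le_mul_of_pos_left _ hw0
  have h4 : 300 * w1 m ≤ d0 m := by
    unfold d0
    refine Nat.mul_le_mul_right _ ?_
    have : 1 ≤ m ^ 4 := Nat.one_le_pow _ _ hm
    omega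
  exact (exact_minor hg W (by omega) hdeg).mono le_rfl (Finset.Subset.refl _) h1

end Pool.Agent.H8.HW
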