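import Pool.Agent.H8.HW.Md

/-! Independent sets in sparse graphs, and groups of vertices which dominate a clique. -/

set_option autoImplicit false

open scoped Classical

namespace Pool.Agent.H8.HW

variable {V : Type}

/-- a graph all of whose subsets have a vertex of small degree has a large independent set -/
theorem indep (r : V → V → Prop) (hs : ∀ x y, r x y → r y x) (hi : ∀ x, ¬ r x x) (D : ℕ) : ∀ (c : ℕ) (Z : Finset V), Z.card ≤ c →
    (∀ U ⊆ Z, U.Nonempty → ∃ v ∈ U, (U.filter (r v)).card ≤ D) →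
    ∃ I ⊆ Z, (∀ x ∈ I, ∀ y ∈ I, ¬ r x y) ∧ Z.card ≤ (D + 1) * I.card := by
  intro c
  induction c with
  | zero =>
    intro Z hZ _
    refine ⟨∅, Finset.empty_subset _, fun x hx => absurd hx (Finset.notMem_empty x), ?_⟩
    omega
  | succ c ih =>
    intro Z hZ h
    rcases Z.eq_empty_or_nonempty with he | hne
    · subst he
      exact ⟨∅, Finset.empty_subset _, fun x hx => absurd hx (Finset.notMem_empty x), by simp⟩
    obtain ⟨v, hv, hvD⟩ := h Z (Finset.Subset.refl _) hne
    set Z' := (Z.erase v) \ Z.filter (r v) with hZ'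
    have hsub : Z' ⊆ Z := Finset.sdiff_subset.trans (Finset.erase_subset _ _)
    have hcard : Z.card ≤ Z'.card + (D + 1) := by
      have h1 : (Z.erase v).card - (Z.filter (r v)).card ≤ Z'.card :=
        Finset.le_card_sdiff _ _
      have h2 : (Z.erase v).card + 1 = Z.card := Finset.card_erase_add_one hv
      omega
    have hlt : Z'.card ≤ c := by
      have h1 : Z'.card ≤ (Z.erase v).card := Finset.card_le_card Finset.sdiff_subset
      have h2 : (Z.erase v).card + 1 = Z.card := Finset.card_erase_add_one hv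
      omega
    obtain ⟨I, hI, hind, hIc⟩ := ih Z' hlt (fun U hU hUne => h U (hU.trans hsub) hUne)
    have hvI : v ∉ I := by
      intro hh
      have := hI hh
      rw [hZ', Finset.mem_sdiff, Finset.mem_erase] at this
      exact this.1.1 rfl
    have hvI' : ∀ x ∈ I, ¬ r v x := by
      intro x hx hadj
      have := hI hx
      rw [hZ', Finset.mem_sdiff, Finset.mem_filter] at this
      exact this.2 ⟨hsub (hI hx), hadj⟩
    refine ⟨insert v I, ?_, ?_, ?_⟩
    · intro x hx
      rcases Finset.mem_insert.1 hx with rfl | hx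
      · exact hv
      · exact hsub (hI hx)
    · intro x hx y hy hxy
      rcases Finset.mem_insert.1 hx with hx1 | hx1
      · rcases Finset.mem_insert.1 hy with hy1 | hy1
        · rw [hx1, hy1] at hxy
          exact hi _ hxy
        · rw [hx1] at hxy
          exact hvI' y hy1 hxy
      · rcases Finset.mem_insert.1 hy with hy1 | hy1
        · rw [hy1] at hxy
          exact hvI' x hx1 (hs _ _ hxy)
        · exact hind x hx1 y hy1 hxy
    · rw [Finset.card_insert_of_notMem hvI]
      calc Z.card ≤ Z'.card + (D + 1) := hcard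
        _ ≤ (D + 1) * I.card + (D + 1) := Nat.add_le_add_right hIc _
        _ = _ := by ring

/-- sparse in every subset gives an independent set -/
theorem indep_sparse (r : V → V → Prop) (hs : ∀ x y, r x y → r y x) (hi : ∀ x, ¬ r x x) (m : ℕ) (Z : Finset V)
    (h : ∀ U ⊆ Z, ∑ v ∈ U, (U.filter (r v)).card ≤ 2 * m * U.card) :
    ∃ I ⊆ Z, (∀ x ∈ I, ∀ y ∈ I, ¬ r x y) ∧ Z.card ≤ (2 * m + 1) * I.card := by
  refine indep r hs hi (2 * m) Z.card Z le_rfl ?_
  intro U hU hne
  by_contra hcon
  push Not at hcon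
  have h1 : ∑ v ∈ U, (2 * m + 1) ≤ ∑ v ∈ U, (U.filter (r v)).card :=
    Finset.sum_le_sum fun v hv => hcon v hv
  rw [Finset.sum_const, smul_eq_mul] at h1
  have h2 := h U hU
  have h3 := hne.card_pos
  nlinarith

/-- independent sets in triangle-free graphs -/
theorem indep_tri (r : V → V → Prop) (hs : ∀ x y, r x y → r y x) (hi : ∀ x, ¬ r x x)
    (hF : ∀ x y z, r x y → r x z → ¬ r y z)
    (W : Finset V) (a : ℕ) (ha : 0 < a) (hW : a * a ≤ W.card) :
    ∃ P ⊆ W, (∀ x ∈ P, ∀ y ∈ P, ¬ r x y) ∧ a ≤ P.card := by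
  by_cases h : ∃ v ∈ W, a ≤ (W.filter (r v)).card
  · obtain ⟨v, _, hv⟩ := h
    refine ⟨_, Finset.filter_subset _ _, ?_, hv⟩
    intro x hx y hy hxy
    exact hF v x y (Finset.mem_filter.1 hx).2 (Finset.mem_filter.1 hy).2 hxy
  · push Not at h
    obtain ⟨I, hI, hind, hIc⟩ := indep r hs hi (a - 1) W.card W le_rfl (by
      intro U hU hne
      obtain ⟨v, hv⟩ := hne
      refine ⟨v, hv, ?_⟩
      have h1 := h v (hU hv)
      have h2 : (U.filter (r v)).card ≤ (W.filter (r v)).card :=
        Finset.card_le_card (Finset.filter_subset_filter _ hU)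
      omega)
    refine ⟨I, hI, hind, ?_⟩
    rw [Nat.sub_add_cancel ha] at hIc
    exact Nat.le_of_mul_le_mul_left (hW.trans hIc) ha

/-- greedy hitting sets -/
theorem hit (r : V → V → Prop) (I S : Finset V) (q : ℕ) (hq : 0 < q)
    (hI : ∀ s ∈ S, I.card ≤ q * (I.filter (r s)).card) (hne : I.Nonempty) : ∀ k : ℕ,
    ∃ B ⊆ I, B.card ≤ k ∧
      q ^ k * (S.filter fun s => ∀ b ∈ B, ¬ r s b).card ≤ (q - 1) ^ k * S.card := by
  intro k
  induction k with
  | zero =>
    refine ⟨∅, Finset.empty_subset _, le_rfl, ?_⟩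
    rw [pow_zero, pow_zero]
    exact Nat.mul_le_mul_left _ (Finset.card_filter_le _ _)
  | succ k ih =>
    obtain ⟨B, hB, hBk, hBc⟩ := ih
    set S' := S.filter fun s => ∀ b ∈ B, ¬ r s b with hS'
    have hsum : S'.card * I.card ≤ q * ∑ b ∈ I, (S'.filter fun s => r s b).card := by
      have h1 : ∑ b ∈ I, (S'.filter fun s => r s b).card =
          ∑ s ∈ S', (I.filter fun b => r s b).card :=
        (Finset.sum_card_bipartiteAbove_eq_sum_card_bipartiteBelow r).symm
      rw [h1, Finset.mul_sum]
      calc S'.card * I.card = ∑ s ∈ S', I.card := by rw [Finset.sum_const, smul_eq_mul]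
        _ ≤ _ := Finset.sum_le_sum fun s hs => hI s (Finset.mem_filter.1 hs).1
    obtain ⟨b, hb, hbc⟩ : ∃ b ∈ I, S'.card ≤ q * (S'.filter fun s => r s b).card := by
      by_contra hcon
      push Not at hcon
      have h1 : ∑ b ∈ I, q * (S'.filter fun s => r s b).card < ∑ b ∈ I, S'.card :=
        Finset.sum_lt_sum_of_nonempty hne hcon
      rw [← Finset.mul_sum, Finset.sum_const, smul_eq_mul, Nat.mul_comm I.card] at h1
      omega
    refine ⟨insert b B, ?_, ?_, ?_⟩
    · intro x hx
      rcases Finset.mem_insert.1 hx with rfl | hx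
      · exact hb
      · exact hB hx
    · exact (Finset.card_insert_le _ _).trans (Nat.succ_le_succ hBk)
    · have h1 : (S.filter fun s => ∀ b' ∈ insert b B, ¬ r s b') = S'.filter fun s => ¬ r s b := by
        ext s
        simp only [hS', Finset.mem_filter, Finset.mem_insert, forall_eq_or_imp]
        constructor
        · rintro ⟨h1, h2, h3⟩
          exact ⟨⟨h1, h3⟩, h2⟩
        · rintro ⟨⟨h1, h3⟩, h2⟩
          exact ⟨h1, h2, h3⟩
      rw [h1]
      have h2 : (S'.filter fun s => r s b).card + (S'.filter fun s => ¬ r s b).card = S'.card :=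
        Finset.card_filter_add_card_filter_not _
      have h3 : q * (S'.filter fun s => ¬ r s b).card ≤ (q - 1) * S'.card := by
        obtain ⟨q', rfl⟩ : ∃ q', q = q' + 1 := ⟨q - 1, by omega⟩
        rw [Nat.add_sub_cancel]
        nlinarith
      calc q ^ (k + 1) * (S'.filter fun s => ¬ r s b).card
          = q ^ k * (q * (S'.filter fun s => ¬ r s b).card) := by ring
        _ ≤ q ^ k * ((q - 1) * S'.card) := Nat.mul_le_mul_left _ h3
        _ = (q - 1) * (q ^ k * S'.card) := by ring
        _ ≤ (q - 1) * ((q - 1) ^ k * S.card) := Nat.mul_le_mul_left _ hBc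
        _ = _ := by ring

/-- groups dominating a clique -/
theorem md_groups (G : SimpleGraph V) (S : Finset V) (m K N : ℕ) (hm : 0 < m)
    (hK : (4 * m - 1) ^ K * S.card < (4 * m) ^ K)
    (hS : ∀ x ∈ S, ∀ y ∈ S, x ≠ y → G.Adj x y) : ∀ (g : ℕ) (I : Finset V), Disjoint S I →
    (∀ x ∈ I, ∀ y ∈ I, x ≠ y → G.Adj x y) → I.card ≤ N → g * (K + 1) ≤ I.card →
    (∀ s ∈ S, N + 4 * m * (g * (K + 1)) ≤ 4 * m * (I.filter (G.Adj s)).card + 4 * m * (K + 1)) →
    Md G (S ∪ I) (S.card + g) := by
  intro g
  induction g with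
  | zero =>
    intro I _ _ _ _ _
    exact (md_clique G S hS).mono le_rfl Finset.subset_union_left le_rfl
  | succ g ih =>
    intro I hd hI hN hgI hs
    have hIne : I.Nonempty := by
      rw [← Finset.card_pos]
      have : 0 < (g + 1) * (K + 1) := by positivity
      omega
    obtain ⟨B, hB, hBk, hBc⟩ := hit (fun s x => G.Adj s x) I S (4 * m) (by omega) (by
      intro s hs'
      have h1 := hs s hs'
      have h2 : 4 * m * ((g + 1) * (K + 1)) = 4 * m * (g * (K + 1)) + 4 * m * (K + 1) := by ring
      have h3 : (I.filter fun x => G.Adj s x) = I.filter (G.Adj s) := rfl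
      rw [h3]
      omega) hIne K
    have hall : ∀ s ∈ S, ∃ b ∈ B, G.Adj s b := by
      intro s hs'
      by_contra hcon
      push Not at hcon
      have h1 : 1 ≤ (S.filter fun s => ∀ b ∈ B, ¬ G.Adj s b).card :=
        Finset.card_pos.2 ⟨s, Finset.mem_filter.2 ⟨hs', hcon⟩⟩
      have h2 : (4 * m) ^ K * 1 ≤ (4 * m) ^ K * (S.filter fun s => ∀ b ∈ B, ¬ G.Adj s b).card :=
        Nat.mul_le_mul_left _ h1
      omega
    obtain ⟨b0, hb0⟩ := hIne
    set B' := insert b0 B with hB'
    have hB'I : B' ⊆ I := by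
      intro x hx
      rcases Finset.mem_insert.1 hx with rfl | hx
      · exact hb0
      · exact hB hx
    have hB'c : B'.card ≤ K + 1 := (Finset.card_insert_le _ _).trans (Nat.succ_le_succ hBk)
    have hI'c : I.card ≤ (I \ B').card + (K + 1) := by
      have := Finset.le_card_sdiff B' I
      omega
    have h1 := ih (I \ B') (Finset.disjoint_of_subset_right Finset.sdiff_subset hd)
      (fun x hx y hy hxy => hI x (Finset.sdiff_subset hx) y (Finset.sdiff_subset hy) hxy)
      ((Finset.card_le_card Finset.sdiff_subset).trans hN)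
      (by
        have h2 : (g + 1) * (K + 1) = g * (K + 1) + (K + 1) := by ring
        omega)
      (by
        intro s hs'
        have h1 := hs s hs'
        have h2 : 4 * m * ((g + 1) * (K + 1)) = 4 * m * (g * (K + 1)) + 4 * m * (K + 1) := by ring
        have h3 : (I.filter (G.Adj s)).card ≤ ((I \ B').filter (G.Adj s)).card + (K + 1) := by
          have h4 : I.filter (G.Adj s) ⊆ (I \ B').filter (G.Adj s) ∪ B' := by
            intro x hx
            rw [Finset.mem_filter] at hx
            rw [Finset.mem_union, Finset.mem_filter, Finset.mem_sdiff]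
            by_cases hxB : x ∈ B'
            · exact Or.inr hxB
            · exact Or.inl ⟨⟨hx.1, hxB⟩, hx.2⟩
          have h5 := (Finset.card_le_card h4).trans (Finset.card_union_le _ _)
          omega
        have h6 : 4 * m * (I.filter (G.Adj s)).card ≤
            4 * m * (((I \ B').filter (G.Adj s)).card + (K + 1)) := Nat.mul_le_mul_left _ h3
        have h7 : 4 * m * (((I \ B').filter (G.Adj s)).card + (K + 1)) =
            4 * m * ((I \ B').filter (G.Adj s)).card + 4 * m * (K + 1) := by ring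
        omega)
    rw [← Nat.add_assoc]
    refine Md.add (B := B') ?_ (hB'I.trans Finset.subset_union_right) ?_ ?_
    · refine h1.mono le_rfl ?_ le_rfl
      intro x hx
      rw [Finset.mem_sdiff, Finset.mem_union]
      rcases Finset.mem_union.1 hx with h | h
      · exact ⟨Or.inl h, fun h' => Finset.disjoint_left.1 hd h (hB'I h')⟩
      · rw [Finset.mem_sdiff] at h
        exact ⟨Or.inr h.1, h.2⟩
    · refine conn_clique G _ ⟨b0, Finset.mem_insert_self _ _⟩ ?_
      intro x hx y hy hxy
      exact hI x (hB'I hx) y (hB'I hy) hxy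
    · intro x hx hxB
      rcases Finset.mem_union.1 hx with h | h
      · obtain ⟨b, hb, hxb⟩ := hall x h
        exact ⟨b, Finset.mem_insert_of_mem hb, hxb.symm⟩
      · exact ⟨b0, Finset.mem_insert_self _ _, hI b0 hb0 x h (fun he => hxB (by
          rw [← he]
          exact Finset.mem_insert_self _ _))⟩

/-- A clique `S` and a large clique `I`: `g - m` more branch sets than `S` has vertices. -/
theorem md_two (G : SimpleGraph V) (S I : Finset V) (m K g : ℕ) (hm : 0 < m)
    (hK : (4 * m - 1) ^ K * S.card < (4 * m) ^ K)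
    (hS : ∀ x ∈ S, ∀ y ∈ S, x ≠ y → G.Adj x y) (hI : ∀ x ∈ I, ∀ y ∈ I, x ≠ y → G.Adj x y)
    (hd : Disjoint S I) (hIc : 4 * m * ((g + 1) * (K + 1)) ≤ I.card)
    (hD : ∀ A B : Finset V, A.card = m → B.card = m → Disjoint A B →
      ∃ x ∈ A, ∃ y ∈ B, G.Adj x y) (t : ℕ) (ht : t + m ≤ S.card + g) :
    Md G (S ∪ I) t := by
  set Sb := S.filter fun s => 2 * m * (I.filter (G.Adj s)).card < I.card with hSb
  have hbad : Sb.card < m := by
    by_contra hcon
    push Not at hcon
    obtain ⟨A, hA, hAm⟩ := Finset.exists_subset_card_eq hcon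
    set J := I.filter fun y => ∀ x ∈ A, ¬ G.Adj x y with hJ
    have h1 : I ⊆ J ∪ A.biUnion fun x => I.filter (G.Adj x) := by
      intro y hy
      rw [Finset.mem_union, Finset.mem_biUnion]
      by_cases h : ∀ x ∈ A, ¬ G.Adj x y
      · exact Or.inl (Finset.mem_filter.2 ⟨hy, h⟩)
      · push Not at h
        obtain ⟨x, hx, hxy⟩ := h
        exact Or.inr ⟨x, hx, Finset.mem_filter.2 ⟨hy, hxy⟩⟩
    have h2 : I.card ≤ J.card + ∑ x ∈ A, (I.filter (G.Adj x)).card :=
      (Finset.card_le_card h1).trans ((Finset.card_union_le _ _).trans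
        (Nat.add_le_add_left Finset.card_biUnion_le _))
    have h3 : 2 * m * ∑ x ∈ A, (I.filter (G.Adj x)).card ≤ m * I.card := by
      rw [Finset.mul_sum]
      calc ∑ x ∈ A, 2 * m * (I.filter (G.Adj x)).card ≤ ∑ x ∈ A, I.card :=
            Finset.sum_le_sum fun x hx => (Finset.mem_filter.1 (hA hx)).2.le
        _ = m * I.card := by rw [Finset.sum_const, smul_eq_mul, hAm]
    have h4 : 2 * ∑ x ∈ A, (I.filter (G.Adj x)).card ≤ I.card := by
      refine Nat.le_of_mul_le_mul_left ?_ hm
      calc m * (2 * ∑ x ∈ A, (I.filter (G.Adj x)).card)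
          = 2 * m * ∑ x ∈ A, (I.filter (G.Adj x)).card := by ring
        _ ≤ _ := h3
    have h5 : 2 * m ≤ I.card := by
      refine le_trans ?_ hIc
      nlinarith [Nat.zero_le (g * K), Nat.zero_le g, Nat.zero_le K,
        Nat.zero_le (m * (g * K)), Nat.zero_le (m * g), Nat.zero_le (m * K)]
    have h6 : m ≤ J.card := by omega
    obtain ⟨J', hJ', hJm⟩ := Finset.exists_subset_card_eq h6
    obtain ⟨x, hx, y, hy, hxy⟩ := hD A J' hAm hJm (by
      refine Finset.disjoint_of_subset_left (hA.trans (Finset.filter_subset _ _)) ?_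
      exact Finset.disjoint_of_subset_right (hJ'.trans (Finset.filter_subset _ _)) hd)
    exact (Finset.mem_filter.1 (hJ' hy)).2 x hx hxy
  have hsub : S \ Sb ⊆ S := Finset.sdiff_subset
  have hcard : S.card ≤ (S \ Sb).card + Sb.card := by
    have := Finset.le_card_sdiff Sb S
    omega
  have key := md_groups G (S \ Sb) m K I.card hm
    (lt_of_le_of_lt (Nat.mul_le_mul_left _ (Finset.card_le_card hsub)) hK)
    (fun x hx y hy hxy => hS x (hsub hx) y (hsub hy) hxy) g I
    (Finset.disjoint_of_subset_left hsub hd) hI le_rfl (by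
      refine le_trans ?_ hIc
      calc g * (K + 1) ≤ (g + 1) * (K + 1) := Nat.mul_le_mul_right _ (Nat.le_succ _)
        _ = 1 * ((g + 1) * (K + 1)) := (Nat.one_mul _).symm
        _ ≤ 4 * m * ((g + 1) * (K + 1)) := Nat.mul_le_mul_right _ (by omega)) (by
      intro s hs
      rw [Finset.mem_sdiff, hSb, Finset.mem_filter, not_and, not_lt] at hs
      have h1 := hs.2 hs.1
      have h2 : 4 * m * (g * (K + 1)) ≤ 4 * m * ((g + 1) * (K + 1)) :=
        Nat.mul_le_mul_left _ (Nat.mul_le_mul_right _ (Nat.le_succ _))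
      have h3 : 4 * m * (I.filter (G.Adj s)).card = 2 * (2 * m * (I.filter (G.Adj s)).card) := by
        ring
      omega)
  refine key.mono le_rfl (Finset.union_subset_union_left hsub) ?_
  omega

end Pool.Agent.H8.HW
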