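import Pool.Agent.H8.HW.Grp

/-! Half of the vertices as branch sets. -/

set_option autoImplicit false
set_option linter.unusedSectionVars false

open scoped Classical

namespace Pool.Agent.H8.HW

variable {V : Type} [Fintype V]

/-- different non-adjacent vertices -/
def nadj {V : Type} (G : SimpleGraph V) (x y : V) : Prop := x ≠ y ∧ ¬ G.Adj x y

theorem nadj_symm {V : Type} (G : SimpleGraph V) (x y : V) (h : nadj G x y) : nadj G y x :=
  ⟨h.1.symm, fun h' => h.2 h'.symm⟩

theorem nadj_irr {V : Type} (G : SimpleGraph V) (x : V) : ¬ nadj G x x := fun h => h.1 rfl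

/-- a dominating edge: every vertex is adjacent to one of its ends -/
def Dom {V : Type} (G : SimpleGraph V) (x y : V) : Prop :=
  G.Adj x y ∧ ∀ z, z ≠ x → z ≠ y → G.Adj x z ∨ G.Adj y z

/-- `G` has independence number at most two; sets without a dominating edge span few non-edges;
any two disjoint sets of `m` vertices are joined by an edge. -/
structure Good (G : SimpleGraph V) (m : ℕ) : Prop where
  two : ∀ x y z, x ≠ y → x ≠ z → y ≠ z → G.Adj x y ∨ G.Adj x z ∨ G.Adj y z
  sparse : ∀ U : Finset V, (∀ x ∈ U, ∀ y ∈ U, ¬ Dom G x y) →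
    ∑ v ∈ U, (U.filter (nadj G v)).card ≤ 2 * m * U.card
  join : ∀ A B : Finset V, A.card = m → B.card = m → Disjoint A B → ∃ x ∈ A, ∃ y ∈ B, G.Adj x y
  pos : 0 < m
  hK : (4 * m - 1) ^ (5 * m ^ 2) * Fintype.card V < (4 * m) ^ (5 * m ^ 2)

theorem Good.tri {G : SimpleGraph V} {m : ℕ} (h : Good G m) (x y z : V) (h1 : nadj G x y)
    (h2 : nadj G x z) : ¬ nadj G y z := by
  intro h3
  rcases h.two x y z h1.1 h2.1 h3.1 with h | h | h
  · exact h1.2 h
  · exact h2.2 h
  · exact h3.2 h

theorem adj_of {G : SimpleGraph V} (x y : V) (h1 : x ≠ y) (h2 : ¬ nadj G x y) : G.Adj x y := by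
  by_contra h
  exact h2 ⟨h1, h⟩

theorem Dom.mono {G G' : SimpleGraph V} (hG : G ≤ G') {x y : V} (h : Dom G x y) : Dom G' x y :=
  ⟨hG h.1, fun z h1 h2 => (h.2 z h1 h2).imp (fun h => hG h) (fun h => hG h)⟩

theorem Good.mono {G G' : SimpleGraph V} {m : ℕ} (h : Good G m) (hG : G ≤ G') : Good G' m where
  two := fun x y z h1 h2 h3 => (h.two x y z h1 h2 h3).imp (fun h => hG h)
    (fun h => h.imp (fun h => hG h) (fun h => hG h))
  sparse := fun U hU => by
    refine le_trans (Finset.sum_le_sum fun v _ => Finset.card_le_card ?_)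
      (h.sparse U fun x hx y hy hd => hU x hx y hy (hd.mono hG))
    intro w hw
    rw [Finset.mem_filter] at hw ⊢
    exact ⟨hw.1, hw.2.1, fun h => hw.2.2 (hG h)⟩
  join := fun A B h1 h2 h3 => by
    obtain ⟨x, hx, y, hy, hxy⟩ := h.join A B h1 h2 h3
    exact ⟨x, hx, y, hy, hG hxy⟩
  pos := h.pos
  hK := h.hK

theorem peel {G : SimpleGraph V} (P : Finset V) :
    ∀ (c : ℕ) (W : Finset V), W.card ≤ c → P ⊆ W → ∃ (Z : Finset V) (j : ℕ), Z ⊆ W \ P ∧
      (∀ x ∈ Z, ∀ y ∈ Z, ¬ Dom G x y) ∧ W.card = P.card + Z.card + 2 * j ∧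
      (∀ Q ⊆ W, (∀ x ∈ Q, ∀ y ∈ Q, ¬ Dom G x y) →
        Q.card ≤ (Q ∩ (P ∪ Z)).card + j) ∧
      ∀ t, Md G (P ∪ Z) t → Md G W (t + j) := by
  intro c
  induction c with
  | zero =>
    intro W hW hP
    have hW0 : W = ∅ := Finset.card_eq_zero.1 (Nat.le_zero.1 hW)
    subst hW0
    have hP0 : P = ∅ := Finset.subset_empty.1 hP
    subst hP0
    refine ⟨∅, 0, by simp, fun x hx => absurd hx (Finset.notMem_empty x), by simp, ?_, ?_⟩
    · intro Q hQ _
      rw [Finset.subset_empty.1 hQ]
      simp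
    · intro t ht
      simpa using ht
  | succ c ih =>
    intro W hW hP
    by_cases hex : ∃ a ∈ W \ P, ∃ b ∈ W \ P, Dom G a b
    · obtain ⟨a, ha, b, hb, hD⟩ := hex
      rw [Finset.mem_sdiff] at ha hb
      have hab : a ≠ b := fun h => G.irrefl (h ▸ hD.1)
      have hsub : ({a, b} : Finset V) ⊆ W := by
        intro x hx
        rw [Finset.mem_insert, Finset.mem_singleton] at hx
        rcases hx with rfl | rfl
        · exact ha.1
        · exact hb.1
      have hc2 : ({a, b} : Finset V).card = 2 := Finset.card_pair hab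
      have hcard : (W \ {a, b}).card + 2 = W.card := by
        rw [← hc2]
        exact Finset.card_sdiff_add_card_eq_card hsub
      have hP' : P ⊆ W \ {a, b} := by
        intro x hx
        rw [Finset.mem_sdiff, Finset.mem_insert, Finset.mem_singleton]
        refine ⟨hP hx, ?_⟩
        rintro (rfl | rfl)
        · exact ha.2 hx
        · exact hb.2 hx
      obtain ⟨Z, j, h1, h2, h3, h4, h5⟩ := ih (W \ {a, b}) (by omega) hP'
      refine ⟨Z, j + 1, h1.trans (Finset.sdiff_subset_sdiff Finset.sdiff_subset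
        (Finset.Subset.refl _)), h2, by omega, ?_, ?_⟩
      · intro Q hQ hQf
        have hQ' : Q \ {a, b} ⊆ W \ {a, b} :=
          Finset.sdiff_subset_sdiff hQ (Finset.Subset.refl _)
        have h6 := h4 (Q \ {a, b}) hQ' (fun x hx y hy =>
          hQf x (Finset.sdiff_subset hx) y (Finset.sdiff_subset hy))
        have h7 : ((Q \ {a, b}) ∩ (P ∪ Z)).card ≤ (Q ∩ (P ∪ Z)).card :=
          Finset.card_le_card (Finset.inter_subset_inter_right Finset.sdiff_subset)
        have h8 : Q.card ≤ (Q \ {a, b}).card + 1 := by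
          have h9 : (Q ∩ {a, b}).card ≤ 1 := by
            rw [Finset.card_le_one]
            intro x hx y hy
            rw [Finset.mem_inter, Finset.mem_insert, Finset.mem_singleton] at hx hy
            obtain ⟨hx1, hx2⟩ := hx
            obtain ⟨hy1, hy2⟩ := hy
            rcases hx2 with hx2 | hx2 <;> rcases hy2 with hy2 | hy2
            · rw [hx2, hy2]
            · exfalso
              rw [hx2] at hx1
              rw [hy2] at hy1
              exact hQf a hx1 b hy1 hD
            · exfalso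
              rw [hx2] at hx1
              rw [hy2] at hy1
              exact hQf a hy1 b hx1 hD
            · rw [hx2, hy2]
          have h10 := Finset.card_sdiff_add_card_inter Q ({a, b} : Finset V)
          omega
        omega
      · intro t ht
        rw [← Nat.add_assoc]
        exact Md.pair (a := a) (b := b) (h5 t ht) ha.1 hb.1 hD.1 fun x _ hxa hxb =>
          hD.2 x hxa hxb
    · push Not at hex
      refine ⟨W \ P, 0, Finset.Subset.refl _, hex, ?_, ?_, ?_⟩
      · have := Finset.card_sdiff_add_card_eq_card hP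
        omega
      · intro Q hQ _
        rw [Finset.union_sdiff_of_subset hP, Finset.inter_eq_left.2 hQ]
        exact Nat.le_add_right _ _
      · intro t ht
        rw [Finset.union_sdiff_of_subset hP] at ht
        exact ht

theorem arith1 (m P Z I g : ℕ) (hm : 0 < m) (h1 : 600000 * m ^ 6 ≤ P) (h2 : P < Z)
    (h3 : Z ≤ (2 * m + 1) * I) (hg : g ≤ 8192 * m ^ 2 + m + 1) :
    4 * m * ((g + 1) * (5 * m ^ 2 + 1)) ≤ I := by
  have e1 : 1 ≤ m ^ 2 := Nat.one_le_pow _ _ hm
  have e2 : m ≤ m ^ 2 := by nlinarith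
  have e3 : g + 1 ≤ 8195 * m ^ 2 := by omega
  have e4 : 5 * m ^ 2 + 1 ≤ 6 * m ^ 2 := by omega
  have e5 : 4 * m * ((g + 1) * (5 * m ^ 2 + 1)) ≤ 4 * m * ((8195 * m ^ 2) * (6 * m ^ 2)) :=
    Nat.mul_le_mul_left _ (Nat.mul_le_mul e3 e4)
  have e6 : 4 * m * ((8195 * m ^ 2) * (6 * m ^ 2)) = 196680 * m ^ 5 := by ring
  have e7 : (2 * m + 1) * I ≤ 3 * m * I := Nat.mul_le_mul_right _ (by omega)
  have e8 : 3 * m * (200000 * m ^ 5) ≤ 3 * m * I := by
    calc 3 * m * (200000 * m ^ 5) = 600000 * m ^ 6 := by ring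
      _ ≤ P := h1
      _ ≤ Z := h2.le
      _ ≤ _ := h3.trans e7
  have e9 : 200000 * m ^ 5 ≤ I := Nat.le_of_mul_le_mul_left e8 (by omega)
  have e10 : 196680 * m ^ 5 ≤ 200000 * m ^ 5 := Nat.mul_le_mul_right _ (by norm_num)
  omega

theorem half {G : SimpleGraph V} {m : ℕ} (hg : Good G m) (W : Finset V)
    (hW : (600000 * m ^ 6) * (600000 * m ^ 6) ≤ W.card) : Md G W ((W.card + 1) / 2) := by
  have hm := hg.pos
  have hm6 : 0 < m ^ 6 := Nat.pow_pos hm
  obtain ⟨P, hPW, hPi, hPc⟩ := indep_tri (nadj G) (nadj_symm G) (nadj_irr G) hg.tri W (600000 * m ^ 6) (by omega) hW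
  obtain ⟨Z, j, hZ, hZf, hc, _, hmd⟩ := peel (G := G) P W.card W le_rfl hPW
  have hdis : Disjoint P Z := by
    rw [Finset.disjoint_left]
    intro x hx hx'
    exact (Finset.mem_sdiff.1 (hZ hx')).2 hx
  have hcPZ : (P ∪ Z).card = P.card + Z.card := Finset.card_union_of_disjoint hdis
  have hclP : ∀ x ∈ P, ∀ y ∈ P, x ≠ y → G.Adj x y :=
    fun x hx y hy hxy => adj_of x y hxy (hPi x hx y hy)
  suffices h : Md G (P ∪ Z) ((P.card + Z.card + 1) / 2) by
    refine (hmd _ h).mono le_rfl (Finset.Subset.refl _) ?_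
    omega
  rcases Nat.lt_or_ge P.card Z.card with hlt | hge
  · rcases Nat.lt_or_ge Z.card (P.card + 16384 * m ^ 2) with hlt2 | hge2
    · obtain ⟨I, hI, hIi, hIc⟩ := indep_sparse (nadj G) (nadj_symm G) (nadj_irr G) m Z (fun U hU => hg.sparse U
        (fun x hx y hy => hZf x (hU hx) y (hU hy)))
      have key := md_two G P I m (5 * m ^ 2) ((Z.card - P.card + 1) / 2 + m) hm
        (lt_of_le_of_lt (Nat.mul_le_mul_left _ (Finset.card_le_univ P)) hg.hK) hclP
        (fun x hx y hy hxy => adj_of x y hxy (hIi x hx y hy))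
        (Finset.disjoint_of_subset_right hI hdis)
        (arith1 m P.card Z.card I.card _ hm hPc hlt hIc (by omega)) hg.join
        ((P.card + Z.card + 1) / 2) (by omega)
      exact key.mono le_rfl (Finset.union_subset_union_right hI) le_rfl
    · obtain ⟨U, j2, hU, hUf, hc2, hQ, hmd2⟩ := peel (G := G) ∅ (P ∪ Z).card (P ∪ Z) le_rfl
        (Finset.empty_subset _)
      rw [Finset.empty_union] at hmd2
      rw [Finset.card_empty, Nat.zero_add, hcPZ] at hc2
      have h1 := hQ Z Finset.subset_union_right hZf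
      rw [Finset.empty_union] at h1
      have h2 : (Z ∩ U).card ≤ U.card := Finset.card_le_card Finset.inter_subset_right
      have h3 := md_missing G U m hm (by omega) (by
        refine le_trans (Finset.sum_le_sum fun v _ => Finset.card_le_card ?_) (hg.sparse U hUf)
        intro w hw
        rw [Finset.mem_filter] at hw ⊢
        exact ⟨hw.1, hw.2⟩)
      refine (hmd2 _ h3).mono le_rfl (Finset.Subset.refl _) ?_
      omega
  · refine (md_clique G P hclP).mono le_rfl Finset.subset_union_left ?_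
    omega

end Pool.Agent.H8.HW
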