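import Pool.Graph.R_seed8.TH481.DenseMinor9

/-! Clique minors inside sets of vertices. -/

set_option autoImplicit false

open scoped Classical

namespace Pool.Agent.H8.HW

variable {V : Type}

/-- `t` disjoint connected sets inside `U`, any two of them joined by an edge -/
def Md (G : SimpleGraph V) (U : Finset V) (t : ℕ) : Prop :=
  ∃ f : Fin t → Finset V, (∀ i, f i ⊆ U) ∧ (∀ i, (G.induce (f i : Set V)).Connected) ∧
    (∀ i j, i ≠ j → Disjoint (f i) (f j)) ∧ (∀ i j, i ≠ j → ∃ u ∈ f i, ∃ v ∈ f j, G.Adj u v)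

theorem md_zero (G : SimpleGraph V) (U : Finset V) : Md G U 0 :=
  ⟨fun _ => ∅, fun i => i.elim0, fun i => i.elim0, fun i => i.elim0, fun i => i.elim0⟩

theorem Md.mono {G G' : SimpleGraph V} {U U' : Finset V} {t t' : ℕ} (h : Md G U t) (hG : G ≤ G')
    (hU : U ⊆ U') (ht : t' ≤ t) : Md G' U' t' := by
  obtain ⟨f, h1, h2, h3, h4⟩ := h
  refine ⟨fun i => f (Fin.castLE ht i), fun i => (h1 _).trans hU, fun i => ?_, fun i j hij => ?_,
    fun i j hij => ?_⟩
  · exact (h2 _).mono (SimpleGraph.comap_monotone _ hG)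
  · exact h3 _ _ (fun h => hij (Fin.castLE_injective ht h))
  · obtain ⟨u, hu, v, hv, huv⟩ := h4 _ _ (fun h => hij (Fin.castLE_injective ht h))
    exact ⟨u, hu, v, hv, hG huv⟩

theorem Md.add {G : SimpleGraph V} {U B : Finset V} {t : ℕ} (h : Md G (U \ B) t) (hB : B ⊆ U)
    (hc : (G.induce (B : Set V)).Connected) (hd : ∀ x ∈ U, x ∉ B → ∃ b ∈ B, G.Adj b x) :
    Md G U (t + 1) := by
  obtain ⟨f, h1, h2, h3, h4⟩ := h
  have hne : ∀ i, ∃ x ∈ f i, x ∈ U ∧ x ∉ B := by
    intro i
    obtain ⟨⟨x, hx⟩⟩ := (h2 i).nonempty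
    have hx' : x ∈ f i := hx
    have := h1 i hx'
    rw [Finset.mem_sdiff] at this
    exact ⟨x, hx', this.1, this.2⟩
  have hdis : ∀ i, Disjoint B (f i) := by
    intro i
    rw [Finset.disjoint_left]
    intro x hx hx'
    exact (Finset.mem_sdiff.1 (h1 i hx')).2 hx
  refine ⟨Fin.cons B f, ?_, ?_, ?_, ?_⟩
  · intro i
    refine Fin.cases ?_ (fun i => ?_) i
    · exact hB
    · exact (h1 i).trans Finset.sdiff_subset
  · intro i
    refine Fin.cases ?_ (fun i => ?_) i
    · exact hc
    · exact h2 i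
  · intro i
    refine Fin.cases ?_ (fun i => ?_) i
    · intro j
      refine Fin.cases ?_ (fun j => ?_) j
      · intro h
        exact absurd rfl h
      · intro _
        exact hdis j
    · intro j
      refine Fin.cases ?_ (fun j => ?_) j
      · intro _
        exact (hdis i).symm
      · intro h
        exact h3 i j (fun h' => h (by rw [h']))
  · intro i
    refine Fin.cases ?_ (fun i => ?_) i
    · intro j
      refine Fin.cases ?_ (fun j => ?_) j
      · intro h
        exact absurd rfl h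
      · intro _
        obtain ⟨x, hx, hxU, hxB⟩ := hne j
        obtain ⟨b, hb, hbx⟩ := hd x hxU hxB
        exact ⟨b, hb, x, hx, hbx⟩
    · intro j
      refine Fin.cases ?_ (fun j => ?_) j
      · intro _
        obtain ⟨x, hx, hxU, hxB⟩ := hne i
        obtain ⟨b, hb, hbx⟩ := hd x hxU hxB
        exact ⟨x, hx, b, hb, hbx.symm⟩
      · intro h
        exact h4 i j (fun h' => h (by rw [h']))

theorem conn_clique (G : SimpleGraph V) (B : Finset V) (hB : B.Nonempty)
    (h : ∀ x ∈ B, ∀ y ∈ B, x ≠ y → G.Adj x y) : (G.induce (B : Set V)).Connected := by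
  obtain ⟨b, hb⟩ := hB
  have : Nonempty (B : Set V) := ⟨⟨b, hb⟩⟩
  refine SimpleGraph.Connected.mk ?_
  rintro ⟨x, hx⟩ ⟨y, hy⟩
  by_cases hxy : x = y
  · subst hxy
    exact SimpleGraph.Reachable.refl _
  · exact SimpleGraph.Adj.reachable (by
      rw [SimpleGraph.induce_adj]
      exact h x hx y hy hxy)

theorem Md.pair {G : SimpleGraph V} {U : Finset V} {a b : V} {t : ℕ} (h : Md G (U \ {a, b}) t)
    (ha : a ∈ U) (hb : b ∈ U) (hab : G.Adj a b)
    (hd : ∀ x ∈ U, x ≠ a → x ≠ b → G.Adj a x ∨ G.Adj b x) : Md G U (t + 1) := by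
  refine h.add ?_ ?_ ?_
  · intro x hx
    rw [Finset.mem_insert, Finset.mem_singleton] at hx
    rcases hx with rfl | rfl
    · exact ha
    · exact hb
  · refine conn_clique G _ ⟨a, Finset.mem_insert_self _ _⟩ ?_
    intro x hx y hy hxy
    rw [Finset.mem_insert, Finset.mem_singleton] at hx hy
    rcases hx with rfl | rfl <;> rcases hy with rfl | rfl
    · exact absurd rfl hxy
    · exact hab
    · exact hab.symm
    · exact absurd rfl hxy
  · intro x hx hx'
    rw [Finset.mem_insert, Finset.mem_singleton, not_or] at hx'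
    rcases hd x hx hx'.1 hx'.2 with h | h
    · exact ⟨a, Finset.mem_insert_self _ _, h⟩
    · exact ⟨b, Finset.mem_insert_of_mem (Finset.mem_singleton_self _), h⟩

theorem Md.single {G : SimpleGraph V} {U : Finset V} {s : V} {t : ℕ} (h : Md G (U.erase s) t)
    (hs : s ∈ U) (hd : ∀ x ∈ U, x ≠ s → G.Adj s x) : Md G U (t + 1) := by
  rw [← Finset.sdiff_singleton_eq_erase] at h
  refine h.add (Finset.singleton_subset_iff.2 hs) ?_ ?_
  · refine conn_clique G _ ⟨s, Finset.mem_singleton_self _⟩ ?_
    intro x hx y hy hxy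
    rw [Finset.mem_singleton] at hx hy
    exact absurd (hx.trans hy.symm) hxy
  · intro x hx hx'
    rw [Finset.mem_singleton] at hx'
    exact ⟨s, Finset.mem_singleton_self _, hd x hx hx'⟩

/-- singles which are adjacent to everything -/
theorem Md.singles {G : SimpleGraph V} (S : Finset V) : ∀ (X : Finset V) (t : ℕ), Md G X t →
    Disjoint X S → (∀ s ∈ S, ∀ x ∈ X ∪ S, x ≠ s → G.Adj s x) → Md G (X ∪ S) (t + S.card) := by
  induction S using Finset.induction_on with
  | empty =>
    intro X t h _ _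
    rwa [Finset.union_empty, Finset.card_empty, Nat.add_zero]
  | insert a S ha ih =>
    intro X t h hd hS
    rw [Finset.disjoint_insert_right] at hd
    have h1 : Md G (X ∪ S) (t + S.card) := by
      refine ih X t h hd.2 ?_
      intro s hs x hx hxs
      refine hS s (Finset.mem_insert_of_mem hs) x ?_ hxs
      rcases Finset.mem_union.1 hx with h | h
      · exact Finset.mem_union_left _ h
      · exact Finset.mem_union_right _ (Finset.mem_insert_of_mem h)
    rw [Finset.card_insert_of_notMem ha, ← Nat.add_assoc]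
    refine Md.single (s := a) ?_ ?_ ?_
    · have : (X ∪ insert a S).erase a = X ∪ S := by
        ext x
        simp only [Finset.mem_erase, Finset.mem_union, Finset.mem_insert]
        constructor
        · rintro ⟨h1, h2 | h2 | h2⟩
          · exact Or.inl h2
          · exact absurd h2 h1
          · exact Or.inr h2
        · rintro (h2 | h2)
          · exact ⟨fun h => hd.1 (h ▸ h2), Or.inl h2⟩
          · exact ⟨fun h => ha (h ▸ h2), Or.inr (Or.inr h2)⟩
      rw [this]
      exact h1
    · exact Finset.mem_union_right _ (Finset.mem_insert_self _ _)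
    · intro x hx hxa
      exact hS a (Finset.mem_insert_self _ _) x hx hxa

theorem md_clique (G : SimpleGraph V) (S : Finset V)
    (h : ∀ x ∈ S, ∀ y ∈ S, x ≠ y → G.Adj x y) : Md G S S.card := by
  have := Md.singles (G := G) S ∅ 0 (md_zero G ∅) (Finset.disjoint_empty_left _) (by
    intro s hs x hx hxs
    rw [Finset.empty_union] at hx
    exact h s hs x hx hxs.symm)
  rwa [Finset.empty_union, Nat.zero_add] at this

theorem md_of_induce (G : SimpleGraph V) (U : Finset V) (t : ℕ)
    (h : TH481.DM.HasCliqueMinor (G.induce (U : Set V)) t) : Md G U t := by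
  obtain ⟨f, h1, h2, h3, h4⟩ := TH481.DM.minorIn_of_induce G (U : Set V) _ h
  have hf : ∀ i, ((U.filter fun x => x ∈ f i : Finset V) : Set V) = f i := by
    intro i
    ext x
    rw [Finset.mem_coe, Finset.mem_filter]
    exact ⟨fun h => h.2, fun h => ⟨h1 i h, h⟩⟩
  refine ⟨fun i => U.filter fun x => x ∈ f i, fun i => Finset.filter_subset _ _, ?_, ?_, ?_⟩
  · intro i
    rw [hf i]
    exact h2 i
  · intro i j hij
    rw [← Finset.disjoint_coe, hf i, hf j]
    exact h3 i j hij
  · intro i j hij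
    obtain ⟨u, hu, v, hv, huv⟩ := h4 i j hij
    exact ⟨u, Finset.mem_filter.2 ⟨h1 i hu, hu⟩, v, Finset.mem_filter.2 ⟨h1 j hv, hv⟩, huv⟩

/-- few missing edges -/
theorem md_missing (G : SimpleGraph V) (U : Finset V) (m : ℕ) (hm : 0 < m)
    (hU : 16384 * m ^ 2 ≤ U.card)
    (h : ∑ v ∈ U, (U.filter fun w => v ≠ w ∧ ¬ G.Adj v w).card ≤ 2 * m * U.card) :
    Md G U ((U.card + 1) / 2) := by
  set G' : SimpleGraph (U : Set V) := G.induce (U : Set V) with hG'
  have hcard : Fintype.card (U : Set V) = U.card := by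
    simp
  obtain ⟨H', hH'⟩ : ∃ H' : SimpleGraph (U : Set V), H' = G'ᶜ := ⟨_, rfl⟩
  have hadj : ∀ u v, H'.Adj u v ↔ u ≠ v ∧ ¬ G'.Adj u v := by
    intro u v
    rw [hH', SimpleGraph.compl_adj]
  have hedge : H'.edgeFinset.card ≤ m * U.card := by
    have h1 := SimpleGraph.sum_degrees_eq_twice_card_edges H'
    have h2 : ∑ v : (U : Set V), H'.degree v ≤
        ∑ v ∈ U, (U.filter fun w => v ≠ w ∧ ¬ G.Adj v w).card := by
      rw [← Finset.sum_coe_sort U]
      refine Finset.sum_le_sum fun v _ => ?_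
      rw [← SimpleGraph.card_neighborFinset_eq_degree]
      refine Finset.card_le_card_of_injOn (fun w => w.1) ?_ ?_
      · intro w hw
        rw [Finset.mem_coe, SimpleGraph.mem_neighborFinset, hadj] at hw
        rw [Finset.mem_coe, Finset.mem_filter]
        refine ⟨w.2, fun h => hw.1 (Subtype.ext h), fun h => hw.2 ?_⟩
        rw [hG', SimpleGraph.induce_adj]
        exact h
      · intro x _ y _ hxy
        exact Subtype.ext hxy
    have h3 : 2 * H'.edgeFinset.card ≤ 2 * (m * U.card) := by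
      rw [← h1]
      calc _ ≤ _ := h2
        _ ≤ 2 * m * U.card := h
        _ = _ := by ring
    omega
  have hm1 : 1 ≤ m ^ 2 := Nat.one_le_pow _ _ hm
  have hU0 : 0 < U.card := by omega
  have key := TH481.DM.main2 G' H' hadj (m * U.card)
    ((U.card + 1) / 2) (by rw [hcard]; exact hU0) hedge (by
      rw [hcard]
      have e1 : 8 * (m * U.card) + U.card ≤ 16 * m * U.card := by nlinarith
      calc 64 * (8 * (m * U.card) + U.card) ^ 2 ≤ 64 * (16 * m * U.card) ^ 2 :=
            Nat.mul_le_mul_left _ (Nat.pow_le_pow_left e1 2)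
        _ = (16384 * m ^ 2) * U.card ^ 2 := by ring
        _ ≤ U.card * U.card ^ 2 := Nat.mul_le_mul_right _ hU
        _ = U.card ^ 3 := by ring) (by
      rw [hcard]
      have e1 : 2 * ((U.card + 1) / 2) ≤ U.card + 1 := Nat.mul_div_le _ _
      have e2 : 4 * (8 * (m * U.card) + U.card) ≤ U.card ^ 2 := by
        have : 4 * (8 * m + 1) ≤ U.card := by nlinarith
        calc 4 * (8 * (m * U.card) + U.card) = (4 * (8 * m + 1)) * U.card := by ring
          _ ≤ U.card * U.card := Nat.mul_le_mul_right _ this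
          _ = U.card ^ 2 := by ring
      calc 4 * (8 * (m * U.card) + U.card) * (2 * ((U.card + 1) / 2))
          ≤ 4 * (8 * (m * U.card) + U.card) * (U.card + 1) := Nat.mul_le_mul_left _ e1
        _ = 4 * (8 * (m * U.card) + U.card) * U.card + 4 * (8 * (m * U.card) + U.card) := by ring
        _ ≤ _ := Nat.add_le_add_left e2 _)
  exact md_of_induce G U _ key

/-- a minor in the sense of the problem -/
theorem Md.minor {G : SimpleGraph V} {U : Finset V} {t : ℕ} (h : Md G U t) :
    ∃ f : Fin t → Set V, (∀ i, (G.induce (f i)).Connected) ∧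
      (∀ i j, i ≠ j → Disjoint (f i) (f j)) ∧ (∀ i j, i ≠ j → ∃ u ∈ f i, ∃ v ∈ f j, G.Adj u v) := by
  obtain ⟨f, _, h2, h3, h4⟩ := h
  exact ⟨fun i => (f i : Set V), h2, fun i j hij => Finset.disjoint_coe.2 (h3 i j hij),
    fun i j hij => h4 i j hij⟩

end Pool.Agent.H8.HW
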