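import Pool.Agent.H8.HW.Exact
import Pool.Agent.H8.MY.Rand

/-! Graphs of independence number two with random edges added. -/

set_option autoImplicit false

open scoped Classical ENNReal

open MeasureTheory Measure ProbabilityTheory unitInterval

namespace Pool.Agent.H8.HW

variable {V : Type} [Fintype V]

/-- the probability that no member of `F` is an edge -/
theorem absent_le (p : I) (F : Finset (Sym2 V)) (hF : ∀ e ∈ F, ¬ e.IsDiag) :
    SimpleGraph.binomialRandom V p {G | ∀ e ∈ F, e ∉ G.edgeSet} ≤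
      ENNReal.ofReal ((1 - (p : ℝ)) ^ F.card) := by
  rw [SimpleGraph.binomialRandom_apply]
  set t : Sym2 V → Set Prop := fun _ => {P | ¬ P} with ht
  have hsub : ((fun (G : SimpleGraph V) e ↦ e ∈ G.edgeSet) '' {G | ∀ e ∈ F, e ∉ G.edgeSet}) ⊆
      Set.pi (F : Set (Sym2 V)) t := by
    rintro _ ⟨G, hG, rfl⟩ e he
    exact hG e he
  refine (measure_mono hsub).trans ?_
  rw [infinitePi_pi _ (fun _ _ => (Set.toFinite _).measurableSet)]
  have hterm : ∀ e ∈ F,
      ((toNNReal p • (dirac (¬ e.IsDiag) : Measure Prop) +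
        toNNReal (σ p) • (dirac False : Measure Prop)) (t e)) ≤ ENNReal.ofReal (1 - (p : ℝ)) := by
    intro e he
    have h1 : (dirac (¬ e.IsDiag) : Measure Prop) (t e) = 0 := by
      rw [dirac_apply]
      refine Set.indicator_of_notMem (fun h => ?_) _
      exact h (hF e he)
    have h2 : (dirac False : Measure Prop) (t e) ≤ 1 := prob_le_one
    rw [Measure.add_apply, Measure.smul_apply, Measure.smul_apply, h1, smul_zero, zero_add]
    have h3 : ENNReal.ofReal (1 - (p : ℝ)) = ((toNNReal (σ p) : NNReal) : ℝ≥0∞) := by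
      rw [ENNReal.ofReal]
      congr 1
      exact Real.toNNReal_of_nonneg (σ p).2.1
    rw [h3, ENNReal.smul_def, smul_eq_mul]
    calc ((toNNReal (σ p) : NNReal) : ℝ≥0∞) * (dirac False : Measure Prop) (t e)
        ≤ ((toNNReal (σ p) : NNReal) : ℝ≥0∞) * 1 := mul_le_mul_right h2 _
      _ = _ := mul_one _
  refine (Finset.prod_le_prod' hterm).trans ?_
  rw [Finset.prod_const, ENNReal.ofReal_pow (sub_nonneg.2 p.2.2)]

/-- the pairs of different non-adjacent vertices of `U` -/
noncomputable def npr (H : SimpleGraph V) (U : Finset V) : Finset (Sym2 V) :=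
  ((U ×ˢ U).filter fun x => nadj H x.1 x.2).image fun x => s(x.1, x.2)

omit [Fintype V] in
theorem npr_card (H : SimpleGraph V) (U : Finset V) :
    ∑ v ∈ U, (U.filter (nadj H v)).card ≤ 2 * (npr H U).card := by
  have h1 : ∑ v ∈ U, (U.filter (nadj H v)).card =
      ((U ×ˢ U).filter fun x => nadj H x.1 x.2).card := by
    rw [Finset.card_filter, Finset.sum_product]
    refine Finset.sum_congr rfl fun v _ => ?_
    rw [Finset.card_filter]
  rw [h1]
  refine Finset.card_le_mul_card_image _ 2 ?_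
  intro e he
  obtain ⟨x, hx, rfl⟩ := Finset.mem_image.1 he
  have : (((U ×ˢ U).filter fun x => nadj H x.1 x.2).filter fun y => s(y.1, y.2) = s(x.1, x.2)) ⊆
      {(x.1, x.2), (x.2, x.1)} := by
    intro y hy
    rw [Finset.mem_filter] at hy
    rw [Finset.mem_insert, Finset.mem_singleton]
    rcases Sym2.eq_iff.1 hy.2 with h | h
    · exact Or.inl (Prod.ext h.1 h.2)
    · exact Or.inr (Prod.ext h.1 h.2)
  exact (Finset.card_le_card this).trans Finset.card_le_two

omit [Fintype V] in
theorem npr_diag (H : SimpleGraph V) (U : Finset V) : ∀ e ∈ npr H U, ¬ e.IsDiag := by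
  intro e he
  obtain ⟨x, hx, rfl⟩ := Finset.mem_image.1 he
  rw [Finset.mem_filter] at hx
  rw [Sym2.mk_isDiag_iff]
  exact hx.2.1

omit [Fintype V] in
theorem prs_card_eq (A B : Finset V) (h : Disjoint A B) :
    (Pool.Agent.H8.MY.prs A B).card = A.card * B.card := by
  rw [Pool.Agent.H8.MY.prs, Finset.card_image_of_injOn, Finset.card_product]
  intro x hx y hy hxy
  rw [Finset.mem_coe, Finset.mem_product] at hx hy
  rcases Sym2.eq_iff.1 hxy with h' | h'
  · exact Prod.ext h'.1 h'.2
  · exfalso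
    refine Finset.disjoint_left.1 h hx.1 ?_
    rw [h'.1]
    exact hy.2

omit [Fintype V] in
theorem prs_diag (A B : Finset V) (h : Disjoint A B) :
    ∀ e ∈ Pool.Agent.H8.MY.prs A B, ¬ e.IsDiag := by
  intro e he
  obtain ⟨x, hx, rfl⟩ := Finset.mem_image.1 he
  rw [Finset.mem_product] at hx
  rw [Sym2.mk_isDiag_iff]
  intro h'
  refine Finset.disjoint_left.1 h hx.1 ?_
  rw [h']
  exact hx.2

theorem hK_of (n m : ℕ) (hn : 1 ≤ n) (hm : 0 < m) (hlog : Real.log n ≤ m) :
    (4 * m - 1) ^ (5 * m ^ 2) * n < (4 * m) ^ (5 * m ^ 2) := by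
  have hm0 : (0 : ℝ) < m := by exact_mod_cast hm
  have hn0 : (0 : ℝ) < n := by exact_mod_cast hn
  have h4 : (1 : ℕ) ≤ 4 * m := by omega
  have key : ((4 * m - 1 : ℕ) : ℝ) ^ (5 * m ^ 2) * n < ((4 * m : ℕ) : ℝ) ^ (5 * m ^ 2) := by
    have e1 : ((4 * m - 1 : ℕ) : ℝ) = 4 * m * (1 - 1 / (4 * m)) := by
      rw [Nat.cast_sub h4]
      push_cast
      field_simp
    have e2 : ((4 * m : ℕ) : ℝ) = 4 * m := by push_cast; ring
    rw [e1, e2, mul_pow, mul_assoc]
    refine mul_lt_of_lt_one_right (by positivity) ?_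
    have e3 : (0 : ℝ) ≤ 1 - 1 / (4 * m) := by
      rw [sub_nonneg, div_le_one (by positivity)]
      have : (1 : ℝ) ≤ m := by exact_mod_cast hm
      linarith
    have e4 : (1 - 1 / (4 * (m : ℝ))) ^ (5 * m ^ 2) ≤ Real.exp (-(5 / 4 * m)) := by
      have e5 : 1 - 1 / (4 * (m : ℝ)) ≤ Real.exp (-(1 / (4 * m))) := by
        have := Real.add_one_le_exp (-(1 / (4 * (m : ℝ))))
        linarith
      calc (1 - 1 / (4 * (m : ℝ))) ^ (5 * m ^ 2) ≤ Real.exp (-(1 / (4 * m))) ^ (5 * m ^ 2) :=
            pow_le_pow_left₀ e3 e5 _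
        _ = Real.exp (-(5 / 4 * m)) := by
            rw [← Real.exp_nat_mul]
            congr 1
            push_cast
            field_simp
    have e5 : (n : ℝ) ≤ Real.exp m := by
      rw [← Real.log_le_iff_le_exp hn0]
      exact hlog
    calc (1 - 1 / (4 * (m : ℝ))) ^ (5 * m ^ 2) * n ≤ Real.exp (-(5 / 4 * m)) * Real.exp m :=
          mul_le_mul e4 e5 hn0.le (Real.exp_pos _).le
      _ = Real.exp (-(1 / 4 * m)) := by
          rw [← Real.exp_add]
          congr 1
          ring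
      _ < 1 := by
          rw [Real.exp_lt_one_iff]
          linarith
  exact_mod_cast key

/-- With high probability the graph `H` with random edges added is good. -/
theorem prob_good (p : I) (H : SimpleGraph V) (m : ℕ) (hm : 0 < m) (hn : 2 ≤ Fintype.card V)
    (hH : ∀ x y z, x ≠ y → x ≠ z → y ≠ z → H.Adj x y ∨ H.Adj x z ∨ H.Adj y z)
    (hlog : 5 * Real.log (Fintype.card V) ≤ p * m) :
    SimpleGraph.binomialRandom V p {R | ¬ Good (H ⊔ R) m} ≤
      ENNReal.ofReal (1 / Fintype.card V) := by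
  set N : ℕ := Fintype.card V with hN
  set n : ℝ := (N : ℝ) with hndef
  have hn2 : (2 : ℝ) ≤ n := by rw [hndef]; exact_mod_cast hn
  have hn0 : 0 < n := by linarith
  have hp0 : (0 : ℝ) ≤ p := p.2.1
  have hp1 : (0 : ℝ) ≤ 1 - p := sub_nonneg.2 p.2.2
  have hp1' : 1 - (p : ℝ) ≤ 1 := by linarith
  have hm0 : (0 : ℝ) < m := by exact_mod_cast hm
  have hlogn : 0 ≤ Real.log n := Real.log_nonneg (by linarith)
  have hlogm : Real.log n ≤ m := by
    have h1 : (p : ℝ) * m ≤ 1 * m := mul_le_mul_of_nonneg_right p.2.2 hm0.le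
    linarith
  set x : ℝ := (1 - (p : ℝ)) ^ m with hx
  have hx0 : 0 ≤ x := pow_nonneg hp1 _
  have hx1 : x ≤ 1 / n ^ 5 := by
    have e1 : 1 - (p : ℝ) ≤ Real.exp (-p) := by
      have := Real.add_one_le_exp (-(p : ℝ))
      linarith
    calc x ≤ Real.exp (-p) ^ m := pow_le_pow_left₀ hp1 e1 _
      _ = Real.exp (-(p * m)) := by
          rw [← Real.exp_nat_mul]
          congr 1
          ring
      _ ≤ Real.exp (-(5 * Real.log n)) := Real.exp_le_exp.2 (by linarith)
      _ = 1 / n ^ 5 := by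
          rw [Real.exp_neg, show (5 : ℝ) * Real.log n = ((5 : ℕ) : ℝ) * Real.log n by norm_num,
            Real.exp_nat_mul, Real.exp_log hn0, one_div]
  -- the two events
  set Q1 : Finset (Finset V) := Finset.univ.filter fun U =>
    2 * m * U.card < ∑ v ∈ U, (U.filter (nadj H v)).card with hQ1
  set Q2 : Finset (Finset V × Finset V) :=
    ((Finset.univ.powersetCard m) ×ˢ (Finset.univ.powersetCard m)).filter
      fun q => Disjoint q.1 q.2 with hQ2
  have hsub : {R : SimpleGraph V | ¬ Good (H ⊔ R) m} ⊆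
      (⋃ U ∈ Q1, {R | ∀ e ∈ npr H U, e ∉ R.edgeSet}) ∪
      (⋃ q ∈ Q2, {R | ∀ e ∈ Pool.Agent.H8.MY.prs q.1 q.2, e ∉ R.edgeSet}) := by
    intro R hR
    by_contra hcon
    rw [Set.mem_union, not_or] at hcon
    simp only [Set.mem_iUnion, not_exists] at hcon
    obtain ⟨h1, h2⟩ := hcon
    apply hR
    have hHR : H ≤ H ⊔ R := le_sup_left
    refine ⟨fun a b c h1 h2 h3 => (hH a b c h1 h2 h3).imp (fun h => hHR h)
      (fun h => h.imp (fun h => hHR h) (fun h => hHR h)), ?_, ?_, hm,
      hK_of N m (by omega) hm hlogm⟩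
    · intro U hU
      by_contra hcon
      push Not at hcon
      have hUQ : U ∈ Q1 := by
        rw [hQ1, Finset.mem_filter]
        refine ⟨Finset.mem_univ _, hcon.trans_le ?_⟩
        refine Finset.sum_le_sum fun v _ => Finset.card_le_card ?_
        intro w hw
        rw [Finset.mem_filter] at hw ⊢
        exact ⟨hw.1, hw.2.1, fun h => hw.2.2 (hHR h)⟩
      refine h1 U hUQ ?_
      intro e he heR
      obtain ⟨y, hy, rfl⟩ := Finset.mem_image.1 he
      rw [Finset.mem_filter, Finset.mem_product] at hy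
      rw [SimpleGraph.mem_edgeSet] at heR
      refine hU y.1 hy.1.1 y.2 hy.1.2 ⟨?_, ?_⟩
      · exact (le_sup_right : R ≤ H ⊔ R) heR
      · intro z hz1 hz2
        rcases hH y.1 y.2 z hy.2.1 hz1.symm hz2.symm with h | h | h
        · exact absurd h hy.2.2
        · exact Or.inl (hHR h)
        · exact Or.inr (hHR h)
    · intro A B hA hB hd
      by_contra hcon
      push Not at hcon
      refine h2 (A, B) ?_ ?_
      · rw [hQ2, Finset.mem_filter, Finset.mem_product, Finset.mem_powersetCard,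
          Finset.mem_powersetCard]
        exact ⟨⟨⟨Finset.subset_univ _, hA⟩, ⟨Finset.subset_univ _, hB⟩⟩, hd⟩
      · intro e he heR
        obtain ⟨y, hy, rfl⟩ := Finset.mem_image.1 he
        rw [Finset.mem_product] at hy
        rw [SimpleGraph.mem_edgeSet] at heR
        exact hcon y.1 hy.1 y.2 hy.2 ((le_sup_right : R ≤ H ⊔ R) heR)
  have hb1 : SimpleGraph.binomialRandom V p (⋃ U ∈ Q1, {R | ∀ e ∈ npr H U, e ∉ R.edgeSet}) ≤
      ENNReal.ofReal (2 / n ^ 4) := by
    refine (measure_biUnion_finset_le _ _).trans ?_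
    have hU : ∀ U ∈ Q1, SimpleGraph.binomialRandom V p {R | ∀ e ∈ npr H U, e ∉ R.edgeSet} ≤
        ENNReal.ofReal (x ^ U.card) := by
      intro U hU
      refine (absent_le p (npr H U) (npr_diag H U)).trans (ENNReal.ofReal_le_ofReal ?_)
      rw [hx, ← pow_mul]
      refine pow_le_pow_of_le_one hp1 hp1' ?_
      have h1 := npr_card H U
      have h2 := (Finset.mem_filter.1 hU).2
      have h3 : 2 * m * U.card = 2 * (m * U.card) := by ring
      omega
    refine (Finset.sum_le_sum hU).trans ?_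
    rw [← ENNReal.ofReal_sum_of_nonneg (fun U _ => by positivity)]
    refine ENNReal.ofReal_le_ofReal ?_
    have e1 : ∑ U ∈ Q1, x ^ U.card ≤ (x + 1) ^ N - 1 := by
      have h2 := Pool.Agent.Y936.EX.sum_pow_powerset (Finset.univ : Finset V) x
      rw [Finset.powerset_univ, Finset.card_univ] at h2
      have h3 : ∅ ∉ Q1 := by
        intro h
        have := (Finset.mem_filter.1 h).2
        simp at this
      have h4 : ∑ U ∈ insert ∅ Q1, x ^ U.card ≤ ∑ U : Finset V, x ^ U.card :=
        Finset.sum_le_sum_of_subset_of_nonneg (Finset.subset_univ _)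
          (fun U _ _ => pow_nonneg hx0 _)
      rw [Finset.sum_insert h3, Finset.card_empty, pow_zero, h2] at h4
      linarith
    have e2 : (x + 1) ^ N ≤ Real.exp (1 / n ^ 4) := by
      calc (x + 1) ^ N ≤ (1 / n ^ 5 + 1) ^ N :=
            pow_le_pow_left₀ (by linarith) (by linarith) _
        _ ≤ Real.exp (1 / n ^ 5) ^ N :=
            pow_le_pow_left₀ (by positivity) (Real.add_one_le_exp _) _
        _ = Real.exp (N * (1 / n ^ 5)) := by rw [Real.exp_nat_mul]
        _ = Real.exp (1 / n ^ 4) := by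
            congr 1
            rw [← hndef]
            field_simp
    have e6 : 1 / n ^ 4 ≤ 1 := by
      rw [div_le_one (by positivity)]
      calc (1 : ℝ) = 1 ^ 4 := by norm_num
        _ ≤ n ^ 4 := pow_le_pow_left₀ (by norm_num) (by linarith) 4
    have e7 : Real.exp (1 / n ^ 4) ≤ 1 + 2 * (1 / n ^ 4) := by
      have h0 : 0 ≤ 1 / n ^ 4 := by positivity
      have := Real.abs_exp_sub_one_le (x := 1 / n ^ 4) (by rw [abs_of_nonneg h0]; exact e6)
      rw [abs_of_nonneg h0] at this
      have h6 := le_abs_self (Real.exp (1 / n ^ 4) - 1)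
      linarith
    have e8 : 2 * (1 / n ^ 4) = 2 / n ^ 4 := by ring
    linarith
  have hb2 : SimpleGraph.binomialRandom V p
      (⋃ q ∈ Q2, {R | ∀ e ∈ Pool.Agent.H8.MY.prs q.1 q.2, e ∉ R.edgeSet}) ≤
      ENNReal.ofReal (1 / n ^ 3) := by
    refine (measure_biUnion_finset_le _ _).trans ?_
    have hU : ∀ q ∈ Q2, SimpleGraph.binomialRandom V p
        {R | ∀ e ∈ Pool.Agent.H8.MY.prs q.1 q.2, e ∉ R.edgeSet} ≤ ENNReal.ofReal (x ^ m) := by
      intro q hq
      rw [hQ2, Finset.mem_filter, Finset.mem_product, Finset.mem_powersetCard,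
        Finset.mem_powersetCard] at hq
      refine (absent_le p _ (prs_diag q.1 q.2 hq.2)).trans (le_of_eq ?_)
      rw [prs_card_eq q.1 q.2 hq.2, hq.1.1.2, hq.1.2.2, hx, ← pow_mul]
    refine (Finset.sum_le_card_nsmul _ _ _ hU).trans ?_
    rw [nsmul_eq_mul, ← ENNReal.ofReal_natCast, ← ENNReal.ofReal_mul (Nat.cast_nonneg _)]
    refine ENNReal.ofReal_le_ofReal ?_
    have e1 : (Q2.card : ℝ) ≤ (n ^ 2) ^ m := by
      have h1 : Q2.card ≤ N.choose m * N.choose m := by
        refine (Finset.card_filter_le _ _).trans (le_of_eq ?_)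
        rw [Finset.card_product, Finset.card_powersetCard, Finset.card_univ]
      have h2 : N.choose m ≤ N ^ m := Nat.choose_le_pow N m
      have h3 : Q2.card ≤ N ^ m * N ^ m := h1.trans (Nat.mul_le_mul h2 h2)
      calc (Q2.card : ℝ) ≤ ((N ^ m * N ^ m : ℕ) : ℝ) := by exact_mod_cast h3
        _ = (n ^ 2) ^ m := by
            push_cast
            rw [← hndef, ← pow_add, ← pow_mul]
            congr 1
            ring
    calc (Q2.card : ℝ) * x ^ m ≤ (n ^ 2) ^ m * (1 / n ^ 5) ^ m :=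
          mul_le_mul e1 (pow_le_pow_left₀ hx0 hx1 _) (pow_nonneg hx0 _) (by positivity)
      _ = (1 / n ^ 3) ^ m := by
          rw [← mul_pow]
          congr 1
          field_simp
      _ ≤ (1 / n ^ 3) ^ 1 := by
          refine pow_le_pow_of_le_one (by positivity) ?_ hm
          rw [div_le_one (by positivity)]
          calc (1 : ℝ) = 1 ^ 3 := by norm_num
            _ ≤ n ^ 3 := pow_le_pow_left₀ (by norm_num) (by linarith) 3
      _ = _ := pow_one _
  refine (measure_mono hsub).trans ((measure_union_le _ _).trans ((add_le_add hb1 hb2).trans ?_))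
  rw [← ENNReal.ofReal_add (by positivity) (by positivity)]
  refine ENNReal.ofReal_le_ofReal ?_
  rw [div_add_div _ _ (by positivity) (by positivity), div_le_div_iff₀ (by positivity) hn0]
  have h1 : 2 ^ 3 ≤ n ^ 3 := pow_le_pow_left₀ (by norm_num) hn2 3
  have h3 : 0 < n ^ 4 := by positivity
  have h4 : 0 < n ^ 3 := by positivity
  have h2 : 4 * n ^ 4 ≤ n ^ 6 := by
    have : 2 ^ 2 ≤ n ^ 2 := pow_le_pow_left₀ (by norm_num) hn2 2
    nlinarith
  have h5 : 4 * n ^ 5 ≤ n ^ 7 := by nlinarith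
  calc (2 * n ^ 3 + n ^ 4 * 1) * n = 2 * n ^ 4 + n ^ 5 := by ring
    _ ≤ n ^ 5 + n ^ 5 := by nlinarith
    _ ≤ n ^ 7 := by linarith [pow_pos hn0 5]
    _ = 1 * (n ^ 4 * n ^ 3) := by ring

end Pool.Agent.H8.HW
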